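import Pool.Agent.H30.HG.Defs

/-!
# HF (second part of HookGeo, MP_a352f3_pr), module GeomL: definitions

Labels of cells and nodes, nodes above a cell, the cell of a vertex, elements of the base boxes, sets of requirements, the numerical
hypotheses `Geom`, the regions `UT` of the top routes.
-/

open MeasureTheory Filter Topology
open Pool.Agent.H17.IIC Pool.Agent.H41.QC Pool.Agent.H47.GM Pool.Agent.H17.QA
open Pool.Agent.H94.HG Pool.Agent.H47.HJ Pool.Agent.H30.HG

namespace Pool.Agent.H94.HF

variable {n : ℕ}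

/-- relations between the scales -/
structure Geom (n q0 r6 U m h i : ℕ) (a : V (n + 2)) : Prop where
  hq : 1 ≤ q0
  hi : q0 + n + 11 ≤ i
  hH : 8 * Ht n q0 (TT n q0 i) ≤ 2 ^ i
  hU : 1 ≤ U
  hr : 1 ≤ r6
  hr6 : r6 ≤ rho n q0 (TT n q0 i)
  hcube : cube i a ⊆ cube (m - h) 0
  hm : 1 ≤ m - h

open Classical in
/-- labels of all nodes -/
noncomputable def NsL (n q0 i : ℕ) : Finset (X n) :=
  Finset.univ ×ˢ nodes q0 (TT n q0 i) (0 : V (n + 2))

open Classical in
/-- labels of the base cells -/
noncomputable def CsL (n q0 i : ℕ) : Finset (X n) := (NsL n q0 i).filter fun x => x.2.1 = 0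

open Classical in
/-- the nodes above the cell `c` (the cell itself included) -/
noncomputable def ancL (n q0 i : ℕ) (c : X n) : Finset (X n) :=
  (NsL n q0 i).filter fun x => x.1 = c.1 ∧ c.2 ∈ nodes q0 x.2.1 x.2.2

open Classical in
/-- the cell of a vertex of the inner boundary -/
noncomputable def cellL (q0 i : ℕ) (a v : V (n + 2)) : X n :=
  if h : ∃ x : X n, x ∈ CsL n q0 i ∧ ∃ z, InN q0 0 x.2.2 z ∧ v = fr i a x.1 z then h.choose
  else (((0 : Fin (n + 2)), false), (0, 0))

open Classical in
/-- elements of the base box of the cell `x` -/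
noncomputable def FlL (q0 i : ℕ) (a : V (n + 2)) (x : X n) : Finset (El (n + 2)) :=
  (FlS q0 x.2.2).image (Sym2.map (fr i a x.1))

open Classical in
/-- requirements of a node -/
noncomputable def TL (q0 i : ℕ) (a : V (n + 2)) (x : X n) : Finset (Req (n + 2)) :=
  (TN q0 x.2.1 x.2.2).image fun q => ⟨fr i a x.1, q.1, q.2⟩

open Classical in
/-- requirements of the top routes -/
noncomputable def T0L (n q0 m h U r6 i : ℕ) (a : V (n + 2)) : Finset (Req (n + 2)) :=
  ((Finset.univ : Finset (Face n × Bool × Face n)).filter fun x => x.2.2 ≠ (x.1.1, !x.1.2)).biUnion fun x =>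
    (tR n q0 m h U r6 i a x.1 x.2.1 x.2.2).image fun q => ⟨fr i a x.1, q.1, q.2⟩

/-- region of a top route, with the half ball -/
def UT (n q0 m h U r6 i : ℕ) (a : V (n + 2)) (F : Face n) (σ : Bool) (g : Face n) : Set (V (n + 2)) :=
  (HB n m h U r6 g : Set (V (n + 2))) ∪ fr i a F '' Zr (tR n q0 m h U r6 i a F σ g)

end Pool.Agent.H94.HF
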