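import Pool.Agent.H30.HG.Nodes
import Pool.Agent.H94.HF.GeomL

/-!
# HF, module CellL: the base cells of the inner boundary

`exists_face` (`H94/HG/Frame.lean`) gives a face with `z = (fr i a F).symm v`, height `0`, lateral coordinates in
`[0, 2^i)`, i.e. `Lat q0 TT 0 z` (`sd_TT`); `nodes_exists` with `t' = 0` gives the cell.
-/

open MeasureTheory Filter Topology
open Pool.Agent.H17.IIC Pool.Agent.H41.QC Pool.Agent.H47.GM Pool.Agent.H17.QA
open Pool.Agent.H94.HG Pool.Agent.H47.HJ Pool.Agent.H30.HG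

namespace Pool.Agent.H94.HF

variable {n : ℕ}

lemma mem_NsL {q0 i : ℕ} {x : X n} : x ∈ NsL n q0 i ↔ x.2 ∈ nodes q0 (TT n q0 i) (0 : V (n + 2)) := by
  unfold NsL
  rw [Finset.mem_product]
  exact ⟨fun h => h.2, fun h => ⟨Finset.mem_univ _, h⟩⟩

lemma mem_CsL {q0 i : ℕ} {x : X n} :
    x ∈ CsL n q0 i ↔ x.2 ∈ nodes q0 (TT n q0 i) (0 : V (n + 2)) ∧ x.2.1 = 0 := by
  unfold CsL
  rw [Finset.mem_filter, mem_NsL]

/-- the first cell -/
lemma CellL_first (q0 t : ℕ) (lo : V (n + 2)) : (0, lo) ∈ nodes q0 t lo := by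
  induction t with
  | zero => exact self_mem_nodes _ _ _
  | succ t ih => exact mem_nodes_succ.2 (Or.inr (Or.inl ih))

/-- `(0, 0)` is a node of level `0` -/
lemma cellL_mem (q0 i : ℕ) (a v : V (n + 2)) : cellL q0 i a v ∈ CsL n q0 i := by
  unfold cellL
  split_ifs with h
  · exact h.choose_spec.1
  · exact mem_CsL.2 ⟨CellL_first _ _ _, rfl⟩

lemma cellL_spec {q0 i : ℕ} (hi : q0 + n + 10 ≤ i) {a v : V (n + 2)}
    (h : IB (cube i a : Set (V (n + 2))) v) :
    ∃ z : V (n + 2), InN q0 0 (cellL q0 i a v).2.2 z ∧ v = fr i a (cellL q0 i a v).1 z := by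
  have hex : ∃ x : X n, x ∈ CsL n q0 i ∧ ∃ z, InN q0 0 x.2.2 z ∧ v = fr i a x.1 z := by
    obtain ⟨F, h0, h1⟩ := exists_face h
    have hl : Lat q0 (TT n q0 i) (0 : V (n + 2)) ((fr i a F).symm v) := by
      intro k hk
      rw [sd_TT n hi hk]
      have h2 := h1 k hk
      refine ⟨h2.1, ?_⟩
      have h3 := h2.2
      push_cast
      rw [Pi.zero_apply, zero_add]
      exact h3
    obtain ⟨l', h2, h3⟩ := nodes_exists hl (Nat.zero_le _)
    exact ⟨(F, (0, l')), mem_CsL.2 ⟨h2, rfl⟩, (fr i a F).symm v, ⟨h0, h3⟩,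
      ((fr i a F).apply_symm_apply v).symm⟩
  unfold cellL
  rw [dif_pos hex]
  exact hex.choose_spec.2

/-- the box of a cell -/
noncomputable def CellLBox (q0 : ℕ) (lo : V (n + 2)) : Finset (V (n + 2)) :=
  Fintype.piFinset fun k => if k = 0 then ({0} : Finset ℤ) else Finset.Ico (lo k) (lo k + sd n q0 0 k)

lemma CellLBox_card (q0 : ℕ) (lo : V (n + 2)) :
    (CellLBox q0 lo).card = (2 ^ (q0 + n + 10)) ^ (n + 1) := by
  unfold CellLBox
  rw [Fintype.card_piFinset, Fin.prod_univ_succ, if_pos rfl, Finset.card_singleton, one_mul]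
  have h : ∀ k : Fin (n + 1), (if k.succ = 0 then ({0} : Finset ℤ)
      else Finset.Ico (lo k.succ) (lo k.succ + sd n q0 0 k.succ)).card = 2 ^ (q0 + n + 10) := by
    intro k
    rw [if_neg (Fin.succ_ne_zero k), Int.card_Ico, sd_zero n q0 (Fin.succ_ne_zero k)]
    have e : lo k.succ + ((2 ^ (q0 + n + 10) : ℕ) : ℤ) - lo k.succ = ((2 ^ (q0 + n + 10) : ℕ) : ℤ) := by ring
    rw [e, Int.toNat_natCast]
  rw [Finset.prod_congr rfl fun k _ => h k, Finset.prod_const, Finset.card_univ, Fintype.card_fin]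

lemma mem_CellLBox {q0 : ℕ} {lo z : V (n + 2)} (h : InN q0 0 lo z) : z ∈ CellLBox q0 lo := by
  unfold CellLBox
  rw [Fintype.mem_piFinset]
  intro k
  by_cases hk : k = 0
  · rw [if_pos hk, hk, h.1]
    exact Finset.mem_singleton_self _
  · rw [if_neg hk, Finset.mem_Ico]
    exact h.2 k hk

open Classical in
/-- the vertices of a cell are images of a box with `w^(n+1)` points -/
lemma cellL_card {q0 i : ℕ} (hi : q0 + n + 10 ≤ i) (a : V (n + 2)) (c : X n) :
    ((cube i a).filter fun v => IB (cube i a : Set (V (n + 2))) v ∧ cellL q0 i a v = c).card ≤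
      (2 ^ (q0 + n + 10)) ^ (n + 1) := by
  have hsub : ((cube i a).filter fun v => IB (cube i a : Set (V (n + 2))) v ∧ cellL q0 i a v = c) ⊆
      (CellLBox q0 c.2.2).image (fr i a c.1) := by
    intro v hv
    rw [Finset.mem_filter] at hv
    obtain ⟨-, h1, h2⟩ := hv
    obtain ⟨z, hz, hz'⟩ := cellL_spec hi h1
    rw [h2] at hz hz'
    rw [Finset.mem_image]
    exact ⟨z, mem_CellLBox hz, hz'.symm⟩
  refine (Finset.card_le_card hsub).trans (Finset.card_image_le.trans ?_)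
  rw [CellLBox_card]

end Pool.Agent.H94.HF
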