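import Pool.Agent.H30.HG.TreeL
import Pool.Agent.H83.HG.Cnt
import Pool.Agent.H94.HF.CellL

/-!
# HF, module AncL: nodes above a cell, counting
-/

open MeasureTheory Filter Topology
open Pool.Agent.H17.IIC Pool.Agent.H41.QC Pool.Agent.H47.GM Pool.Agent.H17.QA
open Pool.Agent.H94.HG Pool.Agent.H47.HJ Pool.Agent.H30.HG

namespace Pool.Agent.H94.HF

variable {n : ℕ}

private lemma mem_ancL {q0 i : ℕ} {c x : X n} : x ∈ ancL n q0 i c ↔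
    x.2 ∈ nodes q0 (TT n q0 i) (0 : V (n + 2)) ∧ x.1 = c.1 ∧ c.2 ∈ nodes q0 x.2.1 x.2.2 := by
  classical
  unfold ancL
  rw [Finset.mem_filter, mem_NsL]

lemma self_ancL {q0 i : ℕ} {c : X n} (hc : c ∈ CsL n q0 i) : c ∈ ancL n q0 i c := by
  rw [mem_ancL]
  exact ⟨(mem_CsL.1 hc).1, rfl, self_mem_nodes q0 c.2.1 c.2.2⟩

/-- one node per level (`nodes_unique` with `v = c.2.2`, `Lat_nodes`, `Lat_self`) -/
lemma ancL_unique {q0 i : ℕ} {c x y : X n} (hx : x ∈ ancL n q0 i c) (hy : y ∈ ancL n q0 i c)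
    (h : x.2.1 = y.2.1) : x = y := by
  rw [mem_ancL] at hx hy
  obtain ⟨h1, h2, h3⟩ := hx
  obtain ⟨h4, h5, h6⟩ := hy
  exact Prod.ext (h2.trans h5.symm) (nodes_unique h1 h4 h (Lat_nodes h3 (Lat_self q0 c.2.1 c.2.2))
    (Lat_nodes h6 (Lat_self q0 c.2.1 c.2.2)))

/-- `rho t = w` holds for at most `n + 2` values of `t` -/
lemma ancL_card (q0 i : ℕ) (c : X n) (w : ℕ) :
    ((ancL n q0 i c).filter fun ν => rho n q0 ν.2.1 = w).card ≤ n + 2 := by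
  classical
  obtain ⟨A, hA⟩ : ∃ A, A = (ancL n q0 i c).filter fun ν => rho n q0 ν.2.1 = w := ⟨_, rfl⟩
  rw [← hA]
  rcases A.eq_empty_or_nonempty with h | ⟨x0, hx0⟩
  · rw [h, Finset.card_empty]; omega
  have hmem : ∀ x ∈ A, x ∈ ancL n q0 i c ∧ rho n q0 x.2.1 = w := by
    intro x hx
    rw [hA] at hx
    exact Finset.mem_filter.1 hx
  obtain ⟨s, hs⟩ : ∃ s, s = (x0.2.1 - 1) / (n + 1) := ⟨_, rfl⟩
  have hlev : ∀ x ∈ A, x.2.1 ∈ Finset.Icc (s * (n + 1)) (s * (n + 1) + (n + 1)) := by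
    intro x hx
    have e1 : rho n q0 x.2.1 = rho n q0 x0.2.1 := (hmem x hx).2.trans (hmem x0 hx0).2.symm
    unfold rho at e1
    have e2 := Nat.pow_right_injective (le_refl 2) e1
    have e3 : (x.2.1 - 1) / (n + 1) = s := by
      omega
    have e4 := Nat.div_add_mod (x.2.1 - 1) (n + 1)
    have e5 := Nat.mod_lt (x.2.1 - 1) (show 0 < n + 1 by omega)
    rw [e3, mul_comm] at e4
    rw [Finset.mem_Icc]
    obtain ⟨u, hu⟩ : ∃ u, u = s * (n + 1) := ⟨_, rfl⟩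
    rw [← hu] at e4 ⊢
    omega
  have hinj : Set.InjOn (fun x : X n => x.2.1) (A : Set (X n)) := by
    intro x hx y hy hxy
    exact ancL_unique (hmem x hx).1 (hmem y hy).1 hxy
  have h1 : A.card ≤ (Finset.Icc (s * (n + 1)) (s * (n + 1) + (n + 1))).card :=
    Finset.card_le_card_of_injOn _ hlev hinj
  rw [Nat.card_Icc] at h1
  omega

/-- nodes of the tree above a leaf (`isSub_node`, `mem_leaves`, `mem_nodes_succ`) -/
lemma anc_of_sub {q0 i : ℕ} {F : Face n} {x c : X n} {l r : Pool.Agent.H47.HJ.Tree (X n)}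
    (h : Pool.Agent.H47.HJ.Tree.IsSub (.node x l r) (tree q0 F (TT n q0 i) 0)) (hc : c ∈ l.leaves ∨ c ∈ r.leaves) :
    x ∈ ancL n q0 i c := by
  obtain ⟨t', lo', h1, h2, h3, h4⟩ := isSub_node h
  rw [mem_ancL, h2]
  rw [h3, h4, mem_leaves, mem_leaves] at hc
  rcases hc with ⟨h5, h6, -⟩ | ⟨h5, h6, -⟩
  · exact ⟨h1, h5.symm, mem_nodes_succ.2 (Or.inr (Or.inl h6))⟩
  · exact ⟨h1, h5.symm, mem_nodes_succ.2 (Or.inr (Or.inr h6))⟩

open Classical in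
/-- COUNTING. At the level `t` there are at most `min (2k) ((2n+4) 2^(TT - t))` relevant nodes (`ancL_unique`,
`nodes_card`); then `num_cnt` with `D = n + 1`, `k₀ = q0`, `T = i - (q0+n+10)` (`rho t ≤ 2^(q0 + t/(n+1))`) or `cnt_num`. -/
theorem cntL (n : ℕ) : ∃ C : ℝ, 1 ≤ C ∧ ∀ (q0 i : ℕ), q0 + n + 10 ≤ i → ∀ (𝒞 : Finset (X n)) (k : ℕ),
    𝒞 ⊆ CsL n q0 i → 1 ≤ k → 𝒞.card ≤ 2 * k →
    ∑ ν ∈ 𝒞.biUnion (ancL n q0 i), (rho n q0 ν.2.1 : ℝ) ≤ C * 2 ^ i * (k : ℝ) ^ gam (n + 2) := by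
  obtain ⟨C, hC, h⟩ := Pool.Agent.H83.HG.cnt_core n
  refine ⟨C, hC, ?_⟩
  intro q0 i hi 𝒞 k _ hk hcard
  refine h q0 i hi 𝒞 (ancL n q0 i) k hk hcard (fun c _ x hx => (mem_ancL.1 hx).1)
    (fun c _ x hx y hy hxy => ancL_unique hx hy hxy) _ ?_
  intro x hx
  obtain ⟨c, hc, hxc⟩ := Finset.mem_biUnion.1 hx
  exact ⟨c, hc, hxc⟩

end Pool.Agent.H94.HF
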