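import Pool.Agent.H30.HG.TopA
import Pool.Agent.H30.HG.TopC
import Pool.Agent.H94.HF.GeomL

/-!
# HF, module CostL: costs and numbers of the requirements
-/

open MeasureTheory Filter Topology
open Pool.Agent.H17.IIC Pool.Agent.H41.QC Pool.Agent.H47.GM Pool.Agent.H17.QA
open Pool.Agent.H94.HG Pool.Agent.H47.HJ Pool.Agent.H30.HG

namespace Pool.Agent.H94.HF

variable {n : ℕ} {q0 r6 U m h i : ℕ} {a : V (n + 2)}

/-- the hypotheses of the top routes -/
lemma Geom.top (G : Geom n q0 r6 U m h i a) (F : Face n) :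
    TopH n q0 i ((fr i a F).symm (cen n m h)) (2 ^ (m - h + 7) * U) r6 :=
  topH_of G.hcube G.hi G.hH G.hU G.hr G.hr6 F

variable {κ : Kind} {p : unitInterval} (RS : RoadSys κ (n + 2) p)

private lemma CostL_inj (φ : V (n + 2) ≃ V (n + 2)) :
    Function.Injective fun q : V (n + 2) × ℕ => (⟨φ, q.1, q.2⟩ : Req (n + 2)) := by
  rintro ⟨z, r⟩ ⟨z', r'⟩ h
  simp only [Req.mk.injEq, true_and] at h
  exact Prod.ext h.1 h.2

private lemma CostL_biU {ι β : Type*} [DecidableEq β] (s : Finset ι) (t : ι → Finset β) (f : β → ℝ)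
    (hf : ∀ b, 0 ≤ f b) : ∑ q ∈ s.biUnion t, f q ≤ ∑ x ∈ s, ∑ q ∈ t x, f q := by
  classical
  induction s using Finset.induction with
  | empty => simp
  | insert x s hx ih =>
    rw [Finset.biUnion_insert, Finset.sum_insert hx]
    have h1 := Finset.sum_union_inter (s₁ := t x) (s₂ := s.biUnion t) (f := f)
    have h2 : 0 ≤ ∑ q ∈ t x ∩ s.biUnion t, f q := Finset.sum_nonneg fun q _ => hf q
    linarith

lemma TL_cost (q0 i : ℕ) (a : V (n + 2)) (x : X n) (ω' : El (n + 2) → Bool) :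
    ∑ q ∈ TL q0 i a x, q.cost RS ω' = KK RS q0 i a ω' x := by
  classical
  unfold TL KK
  rw [Finset.sum_image (fun q _ q' _ hqq => CostL_inj (fr i a x.1) hqq)]
  rfl

lemma T0L_cost (q0 m h U r6 i : ℕ) (a : V (n + 2)) (ω' : El (n + 2) → Bool) (F : Face n) (σ : Bool)
    (g : Face n) (hg : g ≠ (F.1, !F.2)) :
    ∑ q ∈ tR n q0 m h U r6 i a F σ g, RS.lam q.1 q.2 (tr (fr i a F) ω') ≤
      ∑ q ∈ T0L n q0 m h U r6 i a, q.cost RS ω' := by
  classical
  have h1 : ∑ q ∈ tR n q0 m h U r6 i a F σ g, RS.lam q.1 q.2 (tr (fr i a F) ω') =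
      ∑ q ∈ (tR n q0 m h U r6 i a F σ g).image fun q => (⟨fr i a F, q.1, q.2⟩ : Req (n + 2)),
        q.cost RS ω' := by
    rw [Finset.sum_image (fun q _ q' _ hqq => CostL_inj (fr i a F) hqq)]
    rfl
  rw [h1]
  refine Finset.sum_le_sum_of_subset ?_
  intro q hq
  unfold T0L
  rw [Finset.mem_biUnion]
  exact ⟨(F, σ, g), Finset.mem_filter.2 ⟨Finset.mem_univ _, hg⟩, hq⟩

private lemma CostL_cardF (n : ℕ) :
    ((Finset.univ : Finset (Face n × Bool × Face n)).filter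
      fun x => x.2.2 ≠ (x.1.1, !x.1.2)).card ≤ 8 * (n + 2) ^ 2 := by
  classical
  refine (Finset.card_filter_le _ _).trans ?_
  rw [Finset.card_univ]
  simp only [Fintype.card_prod, Fintype.card_fin, Fintype.card_bool]
  apply le_of_eq
  ring

/-- number of requirements of the top routes -/
lemma T0L_card (G : Geom n q0 r6 U m h i a) :
    ((T0L n q0 m h U r6 i a).card : ℝ) ≤ (8192 * (n + 2) ^ 3 : ℕ) * U * 2 ^ (m - h) := by
  classical
  have h1 : (T0L n q0 m h U r6 i a).card ≤ 8 * (n + 2) ^ 2 * (8 * (n + 2) * (2 ^ (m - h + 7) * U)) := by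
    unfold T0L
    refine (Finset.card_biUnion_le_card_mul _ _ (8 * (n + 2) * (2 ^ (m - h + 7) * U)) ?_).trans
      (Nat.mul_le_mul_right _ (CostL_cardF n))
    intro x hx
    rw [Finset.mem_filter] at hx
    refine Finset.card_image_le.trans ?_
    unfold tR
    exact top_card (G.top x.1) (dk_zero hx.2)
  have h2 : 8 * (n + 2) ^ 2 * (8 * (n + 2) * (2 ^ (m - h + 7) * U)) =
      8192 * (n + 2) ^ 3 * U * 2 ^ (m - h) := by
    rw [pow_add]
    ring
  rw [h2] at h1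
  exact_mod_cast h1

/-- sums over the requirements of the top routes -/
lemma T0L_sum (G : Geom n q0 r6 U m h i a) (f : ℕ → ℝ) (hf : ∀ r, 0 ≤ f r) :
    ∑ q ∈ T0L n q0 m h U r6 i a, f q.r ≤ (8 * (n + 2) ^ 2 : ℕ) *
      (4 * (n + 2) * (2 ^ (m - h + 7) * U : ℕ) * f (rho n q0 (TT n q0 i)) +
        ∑ e ∈ Finset.Icc (16 * r6) (2 * (2 ^ (m - h + 7) * U)), f (min (rho n q0 (TT n q0 i)) (e / 16))) := by
  classical
  obtain ⟨B, hB⟩ : ∃ B : ℝ, B = 4 * (n + 2) * (2 ^ (m - h + 7) * U : ℕ) * f (rho n q0 (TT n q0 i)) +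
        ∑ e ∈ Finset.Icc (16 * r6) (2 * (2 ^ (m - h + 7) * U)),
          f (min (rho n q0 (TT n q0 i)) (e / 16)) := ⟨_, rfl⟩
  rw [← hB]
  have hB0 : 0 ≤ B := by
    rw [hB]
    have h1 := hf (rho n q0 (TT n q0 i))
    have h2 : 0 ≤ ∑ e ∈ Finset.Icc (16 * r6) (2 * (2 ^ (m - h + 7) * U)),
        f (min (rho n q0 (TT n q0 i)) (e / 16)) := Finset.sum_nonneg fun e _ => hf _
    positivity
  unfold T0L
  refine (CostL_biU _ _ (fun q : Req (n + 2) => f q.r) (fun q => hf q.r)).trans ?_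
  refine (Finset.sum_le_card_nsmul _ _ B ?_).trans ?_
  · intro x hx
    rw [Finset.mem_filter] at hx
    rw [Finset.sum_image (fun q _ q' _ hqq => CostL_inj (fr i a x.1) hqq), hB]
    exact top_sum (G.top x.1) (dk_zero hx.2) f hf
  · rw [nsmul_eq_mul]
    refine mul_le_mul_of_nonneg_right ?_ hB0
    exact_mod_cast CostL_cardF n

end Pool.Agent.H94.HF
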