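import Pool.Agent.H83.HG.Num
import Pool.Agent.H94.HF.CostL

/-!
# HF, module SumL: choice of the half balls and of the scales
-/

open MeasureTheory Filter Topology
open Pool.Agent.H17.IIC Pool.Agent.H41.QC Pool.Agent.H47.GM Pool.Agent.H17.QA
open Pool.Agent.H94.HG Pool.Agent.H47.HJ Pool.Agent.H30.HG

namespace Pool.Agent.H94.HF

variable {n : ℕ}

private lemma SumL_card_Bx {d : ℕ} (c : V d) (r : ℕ) : (Bx c r).card = (2 * r + 1) ^ d := by
  unfold Bx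
  rw [Fintype.card_piFinset]
  simp only [Int.card_Icc]
  have : ∀ i : Fin d, (c i + (r : ℤ) + 1 - (c i - r)).toNat = 2 * r + 1 := fun i => by omega
  simp only [this, Finset.prod_const, Finset.card_univ, Fintype.card_fin]

/-- sizes of the half balls -/
lemma card_HB (n m h U r6 : ℕ) (g : Face n) : (HB n m h U r6 g).card ≤ (64 * r6 + 1) ^ (n + 2) := by
  classical
  unfold HB
  refine (Finset.card_filter_le _ _).trans (le_of_eq ?_)
  rw [SumL_card_Bx]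
  congr 1
  ring

lemma card_Fl0S (n m h U r6 : ℕ) :
    (Fl0S n m h U r6).card ≤ (2 * n + 4) * ((64 * r6 + 1) ^ (n + 2)) ^ 2 := by
  classical
  unfold Fl0S
  refine (Finset.card_biUnion_le_card_mul _ _ (((64 * r6 + 1) ^ (n + 2)) ^ 2) ?_).trans (le_of_eq ?_)
  · intro g _
    refine Finset.card_image_le.trans ?_
    rw [Finset.card_product, sq]
    exact Nat.mul_le_mul (card_HB n m h U r6 g) (card_HB n m h U r6 g)
  · congr 1
    rw [Finset.card_univ]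
    simp only [Fintype.card_prod, Fintype.card_fin, Fintype.card_bool]
    ring

/-- CHOICE OF `r6` AND `M₀`. `T0L_sum` with `f r = C exp(-c r)`. `f (min rho (e/16)) ≤ f rho + f (e/16)`; the sum of
`f (e/16)` over `e ≥ 16 r6` is at most `16 C exp(-c r6) / (1 - exp(-c))`, small for `r6` large; the terms with `f rho`,
`rho = 2^i / 2^(n+11)` (`rho_TT`), are small by `num_far` (with `c / 2^(n+11)`), which also gives `2^i ≥ B` (hence `Geom`:
`Ht_TT`, `hi`, `hr6`). `hm`: `i ≤ m - h` from the inclusion of the cubes. -/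
theorem top_choice (n : ℕ) (C c ε : ℝ) (hC : 0 < C) (hc : 0 < c) (hε : 0 < ε) (q0 : ℕ) (hq : 1 ≤ q0) :
    ∃ r6 : ℕ, 1 ≤ r6 ∧ ∀ U h : ℕ, 1 ≤ U → 1 ≤ h → ∃ M₀ : ℕ, ∀ m ≥ M₀, ∀ (i : ℕ) (a : V (n + 2)),
      cube i a ⊆ cube (m - h) 0 →
      (2 : ℝ) ^ m ≤ 2 ^ ((n + 2) * i) * Real.log (2 * (n + 2)) →
      Geom n q0 r6 U m h i a ∧
        ∑ q ∈ T0L n q0 m h U r6 i a, C * Real.exp (-c * q.r) ≤ ε := by
  obtain ⟨K, hK⟩ : ∃ K : ℝ, K = ((8 * (n + 2) ^ 2 : ℕ) : ℝ) := ⟨_, rfl⟩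
  have hK0 : 0 < K := by rw [hK]; positivity
  obtain ⟨r6, hr6, hseg⟩ := Pool.Agent.H83.HG.num_seg C c (ε / (2 * K)) hC.le hc (by positivity) 1
  refine ⟨r6, hr6, fun U h hU _ => ?_⟩
  obtain ⟨K', hK'⟩ : ∃ K' : ℝ, K' = 4 * ((n : ℝ) + 2) + 3 := ⟨_, rfl⟩
  have hK'0 : 0 < K' := by rw [hK']; positivity
  obtain ⟨B, hB1, hB2, hB3, hB4⟩ : ∃ B : ℕ, 2 ^ (q0 + n + 11) ≤ B ∧ 32 * (hb n q0 + 16 * 2 ^ q0) ≤ B ∧
      2 ^ (n + 11) * r6 ≤ B ∧ 2 ≤ B := by
    generalize 2 ^ (q0 + n + 11) = x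
    generalize 32 * (hb n q0 + 16 * 2 ^ q0) = y
    generalize 2 ^ (n + 11) * r6 = z
    exact ⟨x + y + z + 2, by omega, by omega, by omega, by omega⟩
  obtain ⟨M₀, hM₀⟩ := Pool.Agent.H83.HG.num_far (n + 2) (K * K' * 128 * C) (c / 2 ^ (n + 11)) (ε / 2)
    (by positivity) (by positivity) (by positivity) B U h
  refine ⟨M₀, fun m hm i a hcube hlog => ?_⟩
  obtain ⟨k1, k2, k3⟩ := hM₀ m hm i (by push_cast; exact hlog)
  have hi : q0 + n + 11 ≤ i := by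
    exact (Nat.pow_le_pow_iff_right (by norm_num)).1 (hB1.trans k2)
  have hrho := rho_TT n (q0 := q0) (i := i) hi
  have hr : r6 ≤ rho n q0 (TT n q0 i) := by
    have h1 : 2 ^ (n + 11) * r6 ≤ 2 ^ (n + 11) * rho n q0 (TT n q0 i) := by
      rw [hrho]; exact hB3.trans k2
    exact Nat.le_of_mul_le_mul_left h1 (by positivity)
  have hmh : 1 ≤ m - h := by
    by_contra hcon
    have h0 : m - h = 0 := by omega
    rw [h0, pow_zero] at k3
    omega
  have G : Geom n q0 r6 U m h i a :=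
    ⟨hq, hi, Ht_TT n hi (hB2.trans k2), hU, hr6, hr, hcube, hmh⟩
  refine ⟨G, ?_⟩
  obtain ⟨f, hf⟩ : ∃ f : ℕ → ℝ, f = fun r : ℕ => C * Real.exp (-c * (r : ℝ)) := ⟨_, rfl⟩
  have hf0 : ∀ r, 0 ≤ f r := fun r => by rw [hf]; positivity
  obtain ⟨A, hA⟩ : ∃ A : ℕ, A = 2 ^ (m - h + 7) * U := ⟨_, rfl⟩
  have hA1 : (1 : ℝ) ≤ A := by
    rw [hA]
    exact_mod_cast Nat.mul_pos (by positivity) hU
  obtain ⟨ρ, hρ⟩ : ∃ ρ : ℕ, ρ = rho n q0 (TT n q0 i) := ⟨_, rfl⟩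
  have hsum := T0L_sum G f hf0
  rw [← hρ, ← hA, ← hK] at hsum
  have hL : ∑ e ∈ Finset.Icc (16 * r6) (2 * A), f (min ρ (e / 16)) ≤
      ε / (2 * K) + (2 * A + 1 : ℕ) * f ρ := by
    have h1 := hseg (2 * A + 1) ρ
    have h2 : ∑ e ∈ Finset.Icc (16 * r6) (2 * A), f (min ρ (e / 16)) ≤
        ∑ t ∈ Finset.range (2 * A + 1), C * Real.exp (-c * ((max r6 (min (t / 16) ρ) : ℕ) : ℝ)) := by
      have e1 : ∀ e ∈ Finset.Icc (16 * r6) (2 * A), f (min ρ (e / 16)) =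
          C * Real.exp (-c * ((max r6 (min (e / 16) ρ) : ℕ) : ℝ)) := by
        intro e he
        rw [Finset.mem_Icc] at he
        have g1 : r6 ≤ e / 16 := by omega
        have g2 : r6 ≤ ρ := by rw [hρ]; exact hr
        have g3 : max r6 (min (e / 16) ρ) = min ρ (e / 16) := by omega
        rw [g3, hf]
      rw [Finset.sum_congr rfl e1]
      refine Finset.sum_le_sum_of_subset_of_nonneg ?_ fun t _ _ => by positivity
      intro e he
      rw [Finset.mem_Icc] at he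
      rw [Finset.mem_range]
      omega
    refine h2.trans (h1.trans (le_of_eq ?_))
    rw [hf]
  have hfρ : f ρ = C * Real.exp (-(c / 2 ^ (n + 11)) * 2 ^ i) := by
    rw [hf]
    simp only
    congr 2
    have h1 : (2 : ℝ) ^ (n + 11) * ρ = 2 ^ i := by
      rw [hρ]
      exact_mod_cast hrho
    rw [← h1]
    have h2 : (2 : ℝ) ^ (n + 11) ≠ 0 := by positivity
    field_simp
  have hfin : K * (4 * (n + 2) * (A : ℝ) * f ρ + (ε / (2 * K) + (2 * A + 1 : ℕ) * f ρ)) ≤ ε := by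
    have e1 : ((2 * A + 1 : ℕ) : ℝ) ≤ 3 * A := by push_cast; linarith
    have e2 : ((2 * A + 1 : ℕ) : ℝ) * f ρ ≤ 3 * A * f ρ := mul_le_mul_of_nonneg_right e1 (hf0 ρ)
    have e3 : K * (4 * (n + 2) * (A : ℝ) * f ρ + (ε / (2 * K) + (2 * A + 1 : ℕ) * f ρ)) ≤
        K * (4 * (n + 2) * (A : ℝ) * f ρ + (ε / (2 * K) + 3 * A * f ρ)) :=
      mul_le_mul_of_nonneg_left (by linarith) hK0.le
    refine e3.trans ?_
    have e4 : K * (4 * (n + 2) * (A : ℝ) * f ρ + (ε / (2 * K) + 3 * A * f ρ)) =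
        ε / 2 + K * K' * (A * f ρ) := by
      rw [hK']
      field_simp
      ring
    rw [e4]
    have e5 : K * K' * ((A : ℝ) * f ρ) =
        K * K' * 128 * C * U * 2 ^ (m - h) * Real.exp (-(c / 2 ^ (n + 11)) * 2 ^ i) := by
      rw [hfρ, hA]
      push_cast
      rw [pow_add]
      ring
    rw [e5]
    linarith
  have hgoal : ∑ q ∈ T0L n q0 m h U r6 i a, C * Real.exp (-c * q.r) =
      ∑ q ∈ T0L n q0 m h U r6 i a, f q.r := by rw [hf]
  rw [hgoal]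
  refine hsum.trans (le_trans ?_ hfin)
  refine mul_le_mul_of_nonneg_left ?_ hK0.le
  linarith

end Pool.Agent.H94.HF
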