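import Pool.Agent.H94.HF.LinkM
import Pool.Agent.H94.HF.SumL
import Pool.Agent.H94.HG.NetX

/-!
# HF, module Final: the hook network
-/

open MeasureTheory Filter Topology
open Pool.Agent.H17.IIC Pool.Agent.H41.QC Pool.Agent.H47.GM Pool.Agent.H17.QA
open Pool.Agent.H94.HG Pool.Agent.H94.BM Pool.Agent.H47.HJ Pool.Agent.H30.HG

namespace Pool.Agent.H94.HF

variable {n : ℕ} {q0 r6 U m h i : ℕ} {a : V (n + 2)}

lemma fr_near {F : Face n} {z : V (n + 2)} {x : V (n + 2)} (h : fr i a F z = x) :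
    z = (fr i a F).symm x := by
  rw [← h, Equiv.symm_apply_apply]

/-- the half balls do not meet the cube -/
lemma HB_cube (G : Geom n q0 r6 U m h i a) {g : Face n} {v : V (n + 2)} (hv : v ∈ HB n m h U r6 g) :
    v ∉ cube i a := by
  intro hc
  have hP : (0 : ℤ) < 2 ^ i := by positivity
  have hv' : fr i a ((0 : Fin (n + 2)), false) ((fr i a ((0 : Fin (n + 2)), false)).symm v) = v :=
    Equiv.apply_symm_apply _ _
  rw [← hv', fr_mem_cube] at hc
  refine HB_base G (g := g) (F := ((0 : Fin (n + 2)), false))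
    (z := (fr i a ((0 : Fin (n + 2)), false)).symm v) ?_ ?_
  · intro k
    by_cases hk : k = 0
    · subst hk
      constructor <;> linarith [hc.1.1, hc.1.2]
    · have := hc.2 k hk
      constructor <;> linarith [this.1, this.2]
  · rw [hv']; exact hv

lemma Fl0S_spec {e : El (n + 2)} (he : e ∈ Fl0S n m h U r6) :
    ∃ g, ∀ v ∈ e, v ∈ HB n m h U r6 g := by
  classical
  unfold Fl0S at he
  rw [Finset.mem_biUnion] at he
  obtain ⟨g, -, he⟩ := he
  rw [Finset.mem_image] at he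
  obtain ⟨⟨x, y⟩, hxy, rfl⟩ := he
  rw [Finset.mem_product] at hxy
  refine ⟨g, fun v hv => ?_⟩
  rw [Sym2.mem_iff] at hv
  rcases hv with rfl | rfl
  · exact hxy.1
  · exact hxy.2

lemma sym2_exists {α : Type*} (e : Sym2 α) : ∃ v, v ∈ e := by
  induction e with
  | _ x y => exact ⟨x, by simp⟩

lemma Fl0S_out (G : Geom n q0 r6 U m h i a) {e : El (n + 2)} (he : e ∈ Fl0S n m h U r6) :
    e ∉ InE (cube i a : Set (V (n + 2))) := by
  intro hE
  obtain ⟨g, hg⟩ := Fl0S_spec he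
  obtain ⟨v, hv⟩ := sym2_exists e
  exact HB_cube G (hg v hv) (Finset.mem_coe.1 (hE v hv))

/-- points of the column of a cell at the height of the base boxes are near the cube -/
lemma Fl0S_disj (G : Geom n q0 r6 U m h i a) {c : X n} (hc : c ∈ CsL n q0 i) :
    Disjoint (Fl0S n m h U r6) (FlL q0 i a c) := by
  rw [Finset.disjoint_left]
  intro e he he'
  obtain ⟨g, hg⟩ := Fl0S_spec he
  obtain ⟨z, hz, hzc, hzh⟩ := FlL_vertex he'
  rw [mem_CsL] at hc
  have h2 : z ∈ Col q0 (TT n q0 i) (0 : V (n + 2)) := by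
    have := Col_nodes hc.1
    rw [hc.2] at this
    exact this hzc
  have hO := over_of_Col G.hi h2
  have hbb := Ht_base n q0 (TT n q0 i)
  have h3 : ((hb n q0 + 8 * rho n q0 0 + 6 * rho n q0 (TT n q0 i) : ℕ) : ℤ) ≤ (Ht n q0 (TT n q0 i) : ℕ) := by
    exact_mod_cast hbb
  push_cast at h3
  have h8 : ((8 * Ht n q0 (TT n q0 i) : ℕ) : ℤ) ≤ ((2 ^ i : ℕ) : ℤ) := by exact_mod_cast G.hH
  push_cast at h8
  have hr : (0 : ℤ) ≤ rho n q0 (TT n q0 i) := by positivity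
  have hP : (0 : ℤ) < 2 ^ i := by positivity
  refine HB_base G (g := g) (F := c.1) (z := z) ?_ (hg _ hz)
  intro k
  by_cases hk : k = 0
  · subst hk
    constructor
    · linarith [hO.1]
    · linarith
  · have := hO.2 k hk
    constructor <;> linarith [this.1, this.2]

/-- requirements of the top routes do not depend on the elements inside the cube -/
lemma T0L_dep (G : Geom n q0 r6 U m h i a) {q : Req (n + 2)} (hq : q ∈ T0L n q0 m h U r6 i a)
    {e : El (n + 2)} (he : e ∈ q.dep) : e ∉ InE (cube i a : Set (V (n + 2))) := by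
  classical
  unfold T0L at hq
  rw [Finset.mem_biUnion] at hq
  obtain ⟨⟨F, σ, g⟩, hg, hq⟩ := hq
  rw [Finset.mem_filter] at hg
  rw [Finset.mem_image] at hq
  obtain ⟨⟨z, r⟩, hz, rfl⟩ := hq
  obtain ⟨e', he', rfl⟩ := he
  intro hE
  obtain ⟨v, hv⟩ := sym2_exists e'
  have h1 : fr i a F v ∈ Sym2.map (fr i a F) e' := Sym2.mem_map.2 ⟨v, hv, rfl⟩
  refine UT_out G (F := F) (σ := σ) (g := g) hg.2 (Or.inr ⟨v, ?_, rfl⟩) (Finset.mem_coe.1 (hE _ h1))
  exact ⟨(z, r), hz, he' v hv⟩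

lemma T0L_aut {q : Req (n + 2)} (hq : q ∈ T0L n q0 m h U r6 i a) : IsAut q.φ := by
  classical
  unfold T0L at hq
  rw [Finset.mem_biUnion] at hq
  obtain ⟨⟨F, σ, g⟩, hg, hq⟩ := hq
  rw [Finset.mem_image] at hq
  obtain ⟨⟨z, r⟩, hz, rfl⟩ := hq
  exact isAut_fr i a F

lemma TL_aut {x : X n} {q : Req (n + 2)} (hq : q ∈ TL q0 i a x) : IsAut q.φ := by
  classical
  unfold TL at hq
  rw [Finset.mem_image] at hq
  obtain ⟨⟨z, r⟩, hz, rfl⟩ := hq
  exact isAut_fr i a x.1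

/-- the constant of the dimension -/
noncomputable def C1 (n : ℕ) : ℝ :=
  max (cntL n).choose (64 * (n + 2) * 2 ^ (n + 13) + 8192 * (n + 2) ^ 3)

lemma C1_cnt (n : ℕ) : (cntL n).choose ≤ C1 n := le_max_left _ _

lemma C1_big (n : ℕ) : (64 * (n + 2) * 2 ^ (n + 13) + 8192 * (n + 2) ^ 3 : ℝ) ≤ C1 n := le_max_right _ _

lemma C1_ge (n : ℕ) : (n + 2 : ℝ) ≤ C1 n := by
  refine le_trans ?_ (C1_big n)
  have h0 : (0 : ℝ) ≤ n := Nat.cast_nonneg n
  have h1 : (1 : ℝ) ≤ 2 ^ (n + 13) := one_le_pow₀ (by norm_num)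
  have h2 : (0 : ℝ) ≤ 8192 * (n + 2) ^ 3 := by positivity
  nlinarith

lemma C1_T (n : ℕ) : (64 * (n + 2) * 2 ^ (n + 13) : ℝ) ≤ C1 n := by
  refine le_trans ?_ (C1_big n)
  have h2 : (0 : ℝ) ≤ 8192 * ((n : ℝ) + 2) ^ 3 := by positivity
  linarith

lemma C1_T0 (n : ℕ) : (8192 * (n + 2) ^ 3 : ℝ) ≤ C1 n := by
  refine le_trans ?_ (C1_big n)
  have h2 : (0 : ℝ) ≤ 64 * ((n : ℝ) + 2) * 2 ^ (n + 13) := by positivity
  linarith

/-- size constant of the base boxes -/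
def M0 (n q0 : ℕ) : ℕ :=
  (2 ^ (q0 + n + 10)) ^ (n + 1) +
    ((hb n q0 + 8 * rho n q0 0 + 1) * (2 ^ (q0 + n + 10)) ^ (n + 1)) ^ 2 + 2 * mB n q0

/-- size constant of the half balls -/
def M6 (n r6 : ℕ) : ℕ :=
  (2 * n + 4) * ((64 * r6 + 1) ^ (n + 2)) ^ 2 + 2 * (64 * r6 + 1) ^ (n + 2)

variable {κ : Kind} {p : unitInterval} (RS : RoadSys κ (n + 2) p)

open Classical in
/-- THE NETWORK -/
noncomputable def netX (G : Geom n q0 r6 U m h i a) {ε : ℝ}
    (hε : ∑ q ∈ T0L n q0 m h U r6 i a, RS.C * Real.exp (-RS.c * q.r) ≤ ε) :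
    NetX RS (C1 n) (2 ^ q0) (M0 n q0) (M6 n r6) ε U m h i a (X n) where
  Cs := CsL n q0 i
  Ns := NsL n q0 i
  cell := cellL q0 i a
  cell_mem := cellL_mem q0 i a
  Fl := FlL q0 i a
  Sp := FlL q0 i a
  Fl0 := Fl0S n m h U r6
  Sp0 := Fl0S n m h U r6
  wt := fun x => rho n q0 x.2.1
  anc := ancL n q0 i
  anc_sub := fun c _ => Finset.filter_subset _ _
  T := TL q0 i a
  T0 := T0L n q0 m h U r6 i a
  cell_card := fun c _ => by
    have h1 := cellL_card (by have := G.hi; omega : q0 + n + 10 ≤ i) a c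
    refine le_trans ?_ (h1.trans ?_)
    · exact le_of_eq (by congr)
    · unfold M0; omega
  Fl_card := fun c _ => (FlL_card q0 i a c).trans (by unfold M0; omega)
  Fl0_card := (card_Fl0S n m h U r6).trans (by unfold M6; omega)
  Sp_sub := fun c _ => subset_rfl
  Sp0_sub := subset_rfl
  Fl_disj := fun c hc c' hc' hne => FlL_disj G.hi a hc hc' hne
  Fl0_disj := fun c hc => Fl0S_disj G hc
  Fl_out := fun c _ e he => FlL_out he
  Fl0_out := fun e he => Fl0S_out G he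
  aut := by
    rintro q (hq | ⟨x, -, hq⟩)
    · exact T0L_aut hq
    · exact TL_aut hq
  dep_out := by
    rintro q (hq | ⟨x, -, hq⟩) e he
    · exact ⟨T0L_dep G hq he, id, fun c _ => id⟩
    · exact ⟨TL_dep hq he, id, fun c _ => id⟩
  wt_ge := fun x _ => by
    have := rho_mono n q0 (Nat.zero_le x.2.1)
    rwa [rho_zero] at this
  anc_card := fun c _ w => by
    have h1 := ancL_card q0 i c w
    have h2 : ((((ancL n q0 i c).filter fun ν => rho n q0 ν.2.1 = w).card : ℕ) : ℝ) ≤ ((n + 2 : ℕ) : ℝ) := by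
      exact_mod_cast h1
    refine le_trans ?_ (h2.trans ?_)
    · exact le_of_eq (by congr)
    · push_cast; exact C1_ge n
  T_card := fun x _ => by
    have h1 : (TL q0 i a x).card ≤ 64 * (n + 2) * (2 ^ (n + 13) * rho n q0 x.2.1) :=
      Finset.card_image_le.trans (TN_card q0 x.2.1 x.2.2 G.hq)
    have h2 : ((TL q0 i a x).card : ℝ) ≤ ((64 * (n + 2) * (2 ^ (n + 13) * rho n q0 x.2.1) : ℕ) : ℝ) := by
      exact_mod_cast h1
    refine h2.trans ?_
    push_cast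
    have h3 : (0 : ℝ) ≤ rho n q0 x.2.1 := Nat.cast_nonneg _
    calc (64 * ((n : ℝ) + 2) * (2 ^ (n + 13) * (rho n q0 x.2.1 : ℝ)))
        = (64 * (n + 2) * 2 ^ (n + 13)) * rho n q0 x.2.1 := by ring
      _ ≤ C1 n * rho n q0 x.2.1 := mul_le_mul_of_nonneg_right (C1_T n) h3
  T_rad := fun x _ q hq => by
    unfold TL at hq
    rw [Finset.mem_image] at hq
    obtain ⟨⟨z, r⟩, hz, rfl⟩ := hq
    have h1 := (TN_rad q0 x.2.1 x.2.2 hz).1
    have h2 : (rho n q0 x.2.1 : ℝ) ≤ 2 * (r : ℝ) := by exact_mod_cast h1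
    refine h2.trans ?_
    have h3 : (0 : ℝ) ≤ (r : ℝ) := Nat.cast_nonneg _
    have h4 : (2 : ℝ) ≤ C1 n := by
      have h5 : (0 : ℝ) ≤ (n : ℝ) := Nat.cast_nonneg n
      linarith [C1_ge n]
    exact mul_le_mul_of_nonneg_right h4 h3
  T0_card := by
    refine (T0L_card G).trans ?_
    push_cast
    have h1 : (0 : ℝ) ≤ (U : ℝ) * 2 ^ (m - h) := by positivity
    have := mul_le_mul_of_nonneg_right (C1_T0 n) h1
    calc (8192 * ((n : ℝ) + 2) ^ 3 * U * 2 ^ (m - h)) = 8192 * (n + 2) ^ 3 * (U * 2 ^ (m - h)) := by ring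
      _ ≤ C1 n * (U * 2 ^ (m - h)) := this
      _ = C1 n * U * 2 ^ (m - h) := by ring
  T0_sum := hε
  cnt := fun 𝒞 k hsub hk hcard => by
    have h1 := (cntL n).choose_spec.2 q0 i (by have := G.hi; omega) 𝒞 k hsub hk hcard
    refine le_trans (le_of_eq ?_) (h1.trans ?_)
    · congr
      exact Subsingleton.elim _ _
    · have h2 : (0 : ℝ) ≤ 2 ^ i * (k : ℝ) ^ gam (n + 2) := by positivity
      have := mul_le_mul_of_nonneg_right (C1_cnt n) h2
      linarith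
  link := by
    intro ω ω' D J v hD hF hJ hv hc2 hsp h0 hfl hT0 hT
    obtain ⟨S, hS, hSn, hSv, π, τ, N, hN, hZ⟩ := @link_ok n q0 r6 U m h i a κ p RS
      (fun a b => Classical.propDecidable (a = b)) G (fun g => card_HB n m h U r6 g) ω ω' D J v hD hF hJ hv
      hc2 hsp h0 hfl hT0 hT
    refine ⟨S, hS, hSn, hSv, π, τ, N, hN.trans ?_, hZ⟩
    have h1 : 2 * mB n q0 * J.card ≤ M0 n q0 * J.card := Nat.mul_le_mul_right _ (by unfold M0; omega)
    have h2 : 2 * (64 * r6 + 1) ^ (n + 2) ≤ M6 n r6 := by unfold M6; omega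
    have h3 := Nat.add_le_add (Nat.add_le_add_left h1 (∑ j ∈ S, D.n j)) h2
    gcongr

/-- GEOMETRY OF THE HOOK -/
theorem hookGeo_aux : HookGeo RS := by
  refine ⟨C1 n, ?_, 1, le_rfl, ?_⟩
  · have h5 : (0 : ℝ) ≤ (n : ℝ) := Nat.cast_nonneg n
    linarith [C1_ge n]
  · intro w₁
    refine ⟨2 ^ (w₁ + 1), ?_, M0 n (w₁ + 1), ?_, ?_⟩
    · exact (Nat.lt_two_pow_self.le).trans (Nat.pow_le_pow_right (by norm_num) (by omega))
    · unfold M0
      have : 1 ≤ (2 ^ (w₁ + 1 + n + 10)) ^ (n + 1) := Nat.one_le_pow _ _ (by positivity)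
      omega
    · intro ε hε
      obtain ⟨r6, hr6, H⟩ := top_choice n RS.C RS.c ε RS.hC RS.hc hε (w₁ + 1) (by omega)
      refine ⟨M6 n r6, ?_⟩
      intro U h hU hh
      obtain ⟨M₀, hM⟩ := H U h hU hh
      refine ⟨M₀, ?_⟩
      intro m hm i a hcube hlog
      obtain ⟨G, hsum⟩ := hM m hm i a hcube hlog
      exact ⟨(netX RS G hsum).toHookNet⟩

end Pool.Agent.H94.HF
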