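import Pool.Agent.H30.HG.Leaf
import Pool.Agent.H30.HG.Node
import Pool.Agent.H30.HG.TreeL
import Pool.Agent.H94.HF.CellL

/-!
# HF, module FlL: the base boxes in actual coordinates; where the requirements of the nodes are
-/

open MeasureTheory Filter Topology
open Pool.Agent.H17.IIC Pool.Agent.H41.QC Pool.Agent.H47.GM Pool.Agent.H17.QA
open Pool.Agent.H94.HG Pool.Agent.H47.HJ Pool.Agent.H30.HG

namespace Pool.Agent.H94.HF

variable {n : ℕ}

/-- number of points of the closed base box -/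
lemma FlL_ClB_card (q0 : ℕ) (lo : V (n + 2)) :
    (ClB q0 lo).card = (hb n q0 + 8 * rho n q0 0 + 1) * (2 ^ (q0 + n + 10)) ^ (n + 1) := by
  unfold ClB
  rw [Fintype.card_piFinset, Fin.prod_univ_succ, if_pos rfl, Int.card_Icc]
  have h0 : ((hb n q0 : ℤ) + 8 * rho n q0 0 + 1 - 0).toNat = hb n q0 + 8 * rho n q0 0 + 1 := by
    have : (hb n q0 : ℤ) + 8 * rho n q0 0 + 1 - 0 = ((hb n q0 + 8 * rho n q0 0 + 1 : ℕ) : ℤ) := by
      push_cast; ring
    rw [this, Int.toNat_natCast]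
  rw [h0]
  have h : ∀ k : Fin (n + 1), (if k.succ = 0 then Finset.Icc 0 ((hb n q0 : ℤ) + 8 * rho n q0 0)
      else Finset.Ico (lo k.succ) (lo k.succ + sd n q0 0 k.succ)).card = 2 ^ (q0 + n + 10) := by
    intro k
    rw [if_neg (Fin.succ_ne_zero k), Int.card_Ico, sd_zero n q0 (Fin.succ_ne_zero k)]
    have e : lo k.succ + ((2 ^ (q0 + n + 10) : ℕ) : ℤ) - lo k.succ = ((2 ^ (q0 + n + 10) : ℕ) : ℤ) := by ring
    rw [e, Int.toNat_natCast]
  rw [Finset.prod_congr rfl fun k _ => h k, Finset.prod_const, Finset.card_univ, Fintype.card_fin]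

lemma FlL_mem_ClB {q0 : ℕ} {lo z : V (n + 2)} (h : z ∈ ClB q0 lo) :
    (0 ≤ z 0 ∧ z 0 ≤ (hb n q0 : ℤ) + 8 * rho n q0 0) ∧ Lat q0 0 lo z := by
  unfold ClB at h
  rw [Fintype.mem_piFinset] at h
  refine ⟨?_, fun k hk => ?_⟩
  · have h0 := h 0
    rw [if_pos rfl, Finset.mem_Icc] at h0
    exact h0
  · have hk' := h k
    rw [if_neg hk, Finset.mem_Ico] at hk'
    exact hk'

/-- the elements of the base box in frame coordinates -/
lemma FlL_mem {q0 i : ℕ} {a : V (n + 2)} {x : X n} {e : El (n + 2)} (he : e ∈ FlL q0 i a x) :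
    ∃ u w : V (n + 2), u ∈ ClB q0 x.2.2 ∧ w ∈ ClB q0 x.2.2 ∧ (1 ≤ u 0 ∨ 1 ≤ w 0) ∧
      e = s(fr i a x.1 u, fr i a x.1 w) := by
  classical
  unfold FlL at he
  rw [Finset.mem_image] at he
  obtain ⟨e', he', rfl⟩ := he
  unfold FlS at he'
  rw [Finset.mem_filter, Finset.mem_image] at he'
  obtain ⟨⟨⟨u, w⟩, huw, rfl⟩, v, hv, h1⟩ := he'
  rw [Finset.mem_product] at huw
  refine ⟨u, w, huw.1, huw.2, ?_, by rw [Sym2.map_mk]⟩
  rw [Sym2.mem_iff] at hv
  rcases hv with rfl | rfl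
  · exact Or.inl h1
  · exact Or.inr h1

lemma FlL_card (q0 i : ℕ) (a : V (n + 2)) (x : X n) : (FlL q0 i a x).card ≤
    ((hb n q0 + 8 * rho n q0 0 + 1) * (2 ^ (q0 + n + 10)) ^ (n + 1)) ^ 2 := by
  classical
  unfold FlL FlS
  refine Finset.card_image_le.trans ((Finset.card_filter_le _ _).trans (Finset.card_image_le.trans ?_))
  rw [Finset.card_product, FlL_ClB_card, sq]

/-- every element of the base box has a vertex in the column of the cell, at a height between `1` and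
`hb + 8 rho 0` -/
lemma FlL_vertex {q0 i : ℕ} {a : V (n + 2)} {x : X n} {e : El (n + 2)} (he : e ∈ FlL q0 i a x) :
    ∃ z : V (n + 2), fr i a x.1 z ∈ e ∧ z ∈ Col q0 0 x.2.2 ∧
      z 0 ≤ (hb n q0 : ℤ) + 8 * rho n q0 0 := by
  obtain ⟨u, w, hu, hw, h1, rfl⟩ := FlL_mem he
  rcases h1 with h1 | h1
  · exact ⟨u, Sym2.mem_mk_left _ _, ⟨h1, (FlL_mem_ClB hu).2⟩, (FlL_mem_ClB hu).1.2⟩
  · exact ⟨w, Sym2.mem_mk_right _ _, ⟨h1, (FlL_mem_ClB hw).2⟩, (FlL_mem_ClB hw).1.2⟩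

/-- all vertices of an element of the base box are in the closed box -/
lemma FlL_all {q0 i : ℕ} {a : V (n + 2)} {x : X n} {e : El (n + 2)} (he : e ∈ FlL q0 i a x)
    {v : V (n + 2)} (hv : v ∈ e) : ∃ z : V (n + 2), v = fr i a x.1 z ∧ 0 ≤ z 0 ∧ Lat q0 0 x.2.2 z := by
  obtain ⟨u, w, hu, hw, h1, rfl⟩ := FlL_mem he
  rw [Sym2.mem_iff] at hv
  rcases hv with rfl | rfl
  · exact ⟨u, rfl, (FlL_mem_ClB hu).1.1, (FlL_mem_ClB hu).2⟩
  · exact ⟨w, rfl, (FlL_mem_ClB hw).1.1, (FlL_mem_ClB hw).2⟩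

/-- `FlL_vertex`, `fr_over_not_mem` -/
lemma FlL_out {q0 i : ℕ} {a : V (n + 2)} {x : X n} {e : El (n + 2)} (he : e ∈ FlL q0 i a x) :
    e ∉ InE (cube i a : Set (V (n + 2))) := by
  obtain ⟨z, hz, h1, -⟩ := FlL_vertex he
  intro h
  exact fr_over_not_mem i a x.1 z h1.1 (Finset.mem_coe.1 (h _ hz))

/-- a point over a face at height at least one and a point of nonnegative height over another face differ -/
lemma FlL_ne {q0 i : ℕ} (hi : q0 + n + 11 ≤ i) (a : V (n + 2)) {F F' : Face n} (hF : F ≠ F')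
    {z z' : V (n + 2)} (hz : z ∈ Col q0 (TT n q0 i) (0 : V (n + 2))) (h0 : 0 ≤ z' 0)
    (hz' : Lat q0 (TT n q0 i) (0 : V (n + 2)) z') : fr i a F z ≠ fr i a F' z' := by
  intro h
  rcases lt_or_ge (z' 0) 1 with h1 | h1
  · have h2 : fr i a F' z' ∈ cube i a := by
      rw [fr_mem_cube]
      have hp : (1 : ℤ) ≤ 2 ^ i := one_le_pow₀ (by norm_num)
      refine ⟨⟨by linarith, by omega⟩, fun k hk => ?_⟩
      have h3 := hz' k hk
      rw [sd_TT n (by omega) hk] at h3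
      simp only [Pi.zero_apply, zero_add] at h3
      push_cast at h3
      exact h3
    rw [← h] at h2
    exact fr_over_not_mem i a F z hz.1 h2
  · exact fr_disj hF (over_of_Col hi hz) (over_of_Col hi ⟨h1, hz'⟩) h

/-- same face: `nodes_unique`; different faces: the vertex of `FlL_vertex` is over the first face at height at
least one, hence neither on the cube nor over the other face (`fr_over_not_mem`, `fr_mem_cube`, `fr_disj`, `over_of_Col`) -/
lemma FlL_disj {q0 i : ℕ} (hi : q0 + n + 11 ≤ i) (a : V (n + 2)) {c c' : X n} (hc : c ∈ CsL n q0 i)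
    (hc' : c' ∈ CsL n q0 i) (hne : c ≠ c') : Disjoint (FlL q0 i a c) (FlL q0 i a c') := by
  rw [Finset.disjoint_left]
  intro e he he'
  obtain ⟨z, hz, h1, -⟩ := FlL_vertex he
  obtain ⟨z', hz', h2, h3⟩ := FlL_all he' hz
  obtain ⟨k1, k2⟩ := mem_CsL.1 hc
  obtain ⟨k3, k4⟩ := mem_CsL.1 hc'
  have hL : Lat q0 c.2.1 c.2.2 z := by rw [k2]; exact (mem_Col.1 h1).2
  have hL' : Lat q0 c'.2.1 c'.2.2 z' := by rw [k4]; exact h3
  by_cases hF : c.1 = c'.1
  · rw [hF] at hz'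
    have hzz : z = z' := (fr i a c'.1).injective hz'
    rw [hzz] at hL
    exact hne (Prod.ext hF (nodes_unique k1 k3 (k2.trans k4.symm) hL hL'))
  · exact FlL_ne hi a hF ⟨h1.1, Lat_nodes k1 hL⟩ h2 (Lat_nodes k3 hL') hz'

/-- elements inside a region over the face `F` which avoids the base boxes of the other cells -/
lemma FlL_notin {q0 i : ℕ} (hi : q0 + n + 11 ≤ i) (a : V (n + 2)) {F : Face n} {A : Set (V (n + 2))}
    (hA : ∀ v ∈ A, v ∈ Col q0 (TT n q0 i) (0 : V (n + 2))) {c : X n} (hc : c ∈ CsL n q0 i) {e : El (n + 2)}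
    (he : e ∈ FlL q0 i a c) (heA : e ∈ InE (fr i a F '' A)) :
    c.1 = F ∧ ∃ v ∈ A, v ∈ Col q0 0 c.2.2 ∧ v 0 ≤ (hb n q0 : ℤ) + 8 * rho n q0 0 := by
  obtain ⟨z, hz, h1, h2⟩ := FlL_vertex he
  obtain ⟨v, hv, hvz⟩ : fr i a c.1 z ∈ fr i a F '' A := heA _ hz
  obtain ⟨k1, k2⟩ := mem_CsL.1 hc
  have hL : Lat q0 c.2.1 c.2.2 z := by rw [k2]; exact (mem_Col.1 h1).2
  have hvC := hA v hv
  by_cases hF : F = c.1
  · subst hF
    have hzz : v = z := (fr i a c.1).injective hvz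
    subst hzz
    exact ⟨rfl, v, hv, h1, h2⟩
  · exact absurd hvz (FlL_ne hi a hF hvC (le_trans zero_le_one h1.1) (Lat_nodes k1 hL))

/-- the balls of the requirements of a node lie in its column (`up_high`; for `t = 0`: `leZ`, `Zr_St_single`) -/
lemma TN_col {q0 t : ℕ} {lo : V (n + 2)} {q : V (n + 2) × ℕ} (hq : q ∈ TN q0 t lo) {v : V (n + 2)}
    (hv : v ∈ Bx q.1 q.2) : v ∈ Col q0 t lo := by
  cases t with
  | succ t => exact (up_high hq hv).1
  | zero =>
    have key : ∀ s : Bool, q ∈ leZ q0 lo s → v ∈ Col q0 0 lo := by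
      intro s hs
      have hz : v ∈ Zr (leZ q0 lo s) := ⟨q, hs, hv⟩
      unfold leZ ln at hz
      have hr : (1 : ℤ) ≤ rho n q0 0 := by exact_mod_cast rho_pos n q0 0
      obtain ⟨h1, h2, h3⟩ := Zr_St_single (k := (0 : Fin (n + 2))) (fun m hm => by
        unfold Po
        rw [if_neg hm, if_neg hm]) hz
      have e0 : ∀ h o : ℤ, Po q0 0 lo h o 0 = h := fun h o => by unfold Po; rw [if_pos rfl]
      rw [e0, e0] at h2
      have hH : (Ht n q0 0 : ℤ) = hb n q0 + 16 * rho n q0 0 := by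
        have : Ht n q0 0 = hb n q0 + 16 * rho n q0 0 := rfl
        rw [this]; push_cast; ring
      have hb0 : (0 : ℤ) ≤ hb n q0 := Int.natCast_nonneg _
      refine ⟨?_, fun k hk => ?_⟩
      · have hmin : (hb n q0 : ℤ) + 4 * rho n q0 0 ≤
            min ((hb n q0 : ℤ) + 4 * rho n q0 0) (Ht n q0 0 : ℤ) := by
          rw [hH]
          exact le_min le_rfl (by linarith)
        linarith
      · have h4 := h1 k hk
        have e1 : Po q0 0 lo ((hb n q0 : ℤ) + 4 * rho n q0 0) (sg s * (16 * rho n q0 0)) k =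
            lo k + ((sd n q0 0 k / 2 : ℕ) : ℤ) + sg s * (16 * rho n q0 0) := by
          unfold Po
          rw [if_neg hk]
        rw [e1, abs_le] at h4
        obtain ⟨r, H, W, hr', -, -, -, hW, hsd, -, -⟩ := Leaf_ar n q0
        obtain ⟨s1, s2⟩ := hsd k hk
        rw [s1] at h4
        rw [s2]
        rw [← hr'] at h4 hr
        rcases GadA_sg s with hs' | hs' <;> rw [hs'] at h4 <;> constructor <;> linarith [h4.1, h4.2]
    unfold TN at hq
    rcases Finset.mem_union.1 hq with h | h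
    · exact key _ h
    · exact key _ h

/-- the requirements of the nodes do not depend on elements inside the cube -/
lemma TL_dep {q0 i : ℕ} {a : V (n + 2)} {x : X n} {q : Req (n + 2)} (hq : q ∈ TL q0 i a x)
    {e : El (n + 2)} (he : e ∈ q.dep) : e ∉ InE (cube i a : Set (V (n + 2))) := by
  classical
  unfold TL at hq
  rw [Finset.mem_image] at hq
  obtain ⟨q', hq', rfl⟩ := hq
  obtain ⟨e', he', rfl⟩ := he
  revert he'
  refine Sym2.ind (fun u w => ?_) e'
  intro he' h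
  have hu : u ∈ Bx q'.1 q'.2 := Finset.mem_coe.1 (he' u (Sym2.mem_mk_left _ _))
  have h1 := h (fr i a x.1 u) (by rw [Sym2.map_mk]; exact Sym2.mem_mk_left _ _)
  exact fr_over_not_mem i a x.1 u (TN_col hq' hu).1 (Finset.mem_coe.1 h1)

end Pool.Agent.H94.HF
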