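import Pool.Agent.H30.HG.TopB
import Pool.Agent.H30.HG.TopC
import Pool.Agent.H94.HF.GeomL

/-!
# HF, module TopL: geometry of the top routes and of the half balls in actual coordinates

`UT F σ g`: half ball at the port in direction `g` and union of the balls of the top route over `F` from the lane `σ`
in the direction `g ≠ -F`. From `TopB` (`top_reg`, `top_side`, `top_zero`, `top_bd`) and `TopC` (`fr_dir`, `HB_fr`, ...).
-/

open MeasureTheory Filter Topology
open Pool.Agent.H17.IIC Pool.Agent.H41.QC Pool.Agent.H47.GM Pool.Agent.H17.QA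
open Pool.Agent.H94.HG Pool.Agent.H47.HJ Pool.Agent.H30.HG

namespace Pool.Agent.H94.HF

variable {n : ℕ} {q0 r6 U m h i : ℕ} {a : V (n + 2)}

/-! ### numbers -/

/-- the numbers: `R = 2^i`, `S = 2^(m-h)`, `ρ`, `SU = S * U` -/
lemma TopL_num (G : Geom n q0 r6 U m h i a) : ∃ R S ρ SU : ℤ, R = 2 ^ i ∧ S = 2 ^ (m - h) ∧
    ρ = rho n q0 (TT n q0 i) ∧ SU = 2 ^ (m - h) * (U : ℤ) ∧ (2 : ℤ) ^ (m - h + 7) * U = 128 * SU ∧
    2048 * ρ ≤ R ∧ 1 ≤ ρ ∧ (r6 : ℤ) ≤ ρ ∧ 1 ≤ (r6 : ℤ) ∧ R ≤ S ∧ S ≤ SU ∧ 2 * 2 ^ (m - h - 1) = S ∧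
    8 * (Ht n q0 (TT n q0 i) : ℤ) ≤ R ∧ 2 * ρ + 1 ≤ Ht n q0 (TT n q0 i) ∧
    (∀ k, 0 ≤ a k * R ∧ a k * R + R ≤ S) ∧ 2 * 2 ^ (i - 1) = R := by
  have h1 := rho_TT n G.hi
  have h2 := G.hH
  have h5 : 2048 * rho n q0 (TT n q0 i) ≤ 2 ^ i := by
    rw [← h1]
    apply Nat.mul_le_mul_right
    calc 2048 = 2 ^ 11 := by norm_num
      _ ≤ 2 ^ (n + 11) := Nat.pow_le_pow_right (by norm_num) (by omega)
  have h6 := G.hr
  have h7 := G.hr6
  have h8 := rho_pos n q0 (TT n q0 i)
  have h9 : 2 * 2 ^ (m - h - 1) = 2 ^ (m - h) := by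
    rw [← pow_succ']; congr 1; have := G.hm; omega
  have h10 : 2 * 2 ^ (i - 1) = 2 ^ i := by
    rw [← pow_succ']; congr 1; have := G.hi; omega
  have h11 := Ht_base n q0 (TT n q0 i)
  have h12 := hb_pos n q0
  have hU := G.hU
  have hR0 : (1 : ℤ) ≤ 2 ^ i := one_le_pow₀ (by norm_num)
  have hcube : ∀ k, 0 ≤ a k * 2 ^ i ∧ a k * 2 ^ i + 2 ^ i ≤ (2 : ℤ) ^ (m - h) := by
    intro k
    have e1 : (fun j => a j * 2 ^ i : V (n + 2)) ∈ cube i a := by
      rw [mem_cube]
      intro j
      constructor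
      · exact le_rfl
      · have : (a j + 1) * 2 ^ i = a j * 2 ^ i + 2 ^ i := by ring
        rw [this]; omega
    have e2 : (fun j => (a j + 1) * 2 ^ i - 1 : V (n + 2)) ∈ cube i a := by
      rw [mem_cube]
      intro j
      have : (a j + 1) * 2 ^ i = a j * 2 ^ i + 2 ^ i := by ring
      constructor
      · show a j * 2 ^ i ≤ (a j + 1) * 2 ^ i - 1
        rw [this]; omega
      · show (a j + 1) * 2 ^ i - 1 < (a j + 1) * 2 ^ i
        omega
    have f1 := (mem_cube.1 (G.hcube e1) k).1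
    have f2 := (mem_cube.1 (G.hcube e2) k).2
    simp only [Pi.zero_apply, zero_mul, zero_add, one_mul] at f1 f2
    have : (a k + 1) * 2 ^ i = a k * 2 ^ i + 2 ^ i := by ring
    rw [this] at f2
    constructor
    · exact f1
    · omega
  have hRS : (2 : ℤ) ^ i ≤ 2 ^ (m - h) := by
    have := hcube 0
    omega
  refine ⟨2 ^ i, 2 ^ (m - h), rho n q0 (TT n q0 i), 2 ^ (m - h) * (U : ℤ), rfl, rfl, rfl, rfl, ?_, ?_, ?_,
    ?_, ?_, hRS, ?_, by exact_mod_cast h9, by exact_mod_cast h2, ?_, hcube, by exact_mod_cast h10⟩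
  · rw [pow_add]; ring
  · exact_mod_cast h5
  · exact_mod_cast h8
  · exact_mod_cast h7
  · exact_mod_cast h6
  · have : (1 : ℤ) ≤ U := by exact_mod_cast hU
    nlinarith [show (0 : ℤ) < 2 ^ (m - h) by positivity]
  · have : 2 * rho n q0 (TT n q0 i) + 1 ≤ Ht n q0 (TT n q0 i) := by omega
    exact_mod_cast this

lemma TopL_topH (G : Geom n q0 r6 U m h i a) (F : Face n) :
    TopH n q0 i ((fr i a F).symm (cen n m h)) (2 ^ (m - h + 7) * U) r6 :=
  topH_of G.hcube G.hi G.hH G.hU G.hr G.hr6 F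

/-- the cube and its neighbourhood are near the centre: frame coordinates in `[-2^i, 2^(i+1)]` -/
lemma near_bound (G : Geom n q0 r6 U m h i a) {F : Face n} {z : V (n + 2)}
    (hz : ∀ k, -2 ^ i ≤ z k ∧ z k ≤ 2 * 2 ^ i) (k : Fin (n + 2)) :
    |fr i a F z k - cen n m h k| ≤ 3 * 2 ^ (m - h) := by
  obtain ⟨R, S, ρ, SU, hR, hS, hρ, hSU, gA, g1, g2, g3, g4, g5, g6, g7, g8, g9, hc, g10⟩ := TopL_num G
  have hck := hc k
  have hcen : cen n m h k = 2 ^ (m - h - 1) := rfl
  rw [hcen]
  obtain ⟨c, hcc⟩ : ∃ c : ℤ, c = 2 ^ (m - h - 1) := ⟨_, rfl⟩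
  rw [← hcc] at g7 ⊢
  rw [← hR] at hz
  by_cases hk : k = F.1
  · subst hk
    rw [fr_normal, ← hR, ← hS]
    have h0 := hz 0
    have e : (a F.1 + 1) * R = a F.1 * R + R := by ring
    rw [abs_le]
    split_ifs
    · rw [e]; constructor <;> omega
    · constructor <;> omega
  · rw [fr_lat i a F z hk, ← hR, ← hS]
    have h0 := hz (Equiv.swap 0 F.1 k)
    rw [abs_le]
    constructor <;> omega

lemma TopL_port (g : Face n) (m h U : ℕ) (k : Fin (n + 2)) :
    Port n m h U g k = cen n m h k + if k = g.1 then sg g.2 * (2 ^ (m - h + 7) * U) else 0 := by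
  unfold Port
  rw [Pi.add_apply, Pi.smul_apply, smul_eq_mul]
  by_cases hk : k = g.1
  · subst hk
    rw [Pi.single_eq_same, if_pos rfl, mul_one]
  · rw [Pi.single_eq_of_ne hk, if_neg hk, mul_zero]

/-- half balls are far away (`32 r6 ≤ 2^(m-h)`) -/
lemma HB_far (G : Geom n q0 r6 U m h i a) {g : Face n} {v : V (n + 2)} (hv : v ∈ HB n m h U r6 g) :
    100 * (2 ^ (m - h) * (U : ℤ)) ≤ sg g.2 * (v g.1 - cen n m h g.1) ∧
      sg g.2 * (v g.1 - cen n m h g.1) ≤ 2 ^ (m - h + 7) * U ∧
      ∀ k, k ≠ g.1 → |v k - cen n m h k| ≤ 2 ^ (m - h) := by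
  obtain ⟨R, S, ρ, SU, hR, hS, hρ, hSU, gA, g1, g2, g3, g4, g5, g6, g7, g8, g9, hc, g10⟩ := TopL_num G
  unfold HB at hv
  rw [Finset.mem_filter, mem_Bx] at hv
  obtain ⟨h1, h2⟩ := hv
  refine ⟨?_, h2, fun k hk => ?_⟩
  · have h3 := abs_le.1 (h1 g.1)
    rw [TopL_port, if_pos rfl, gA] at h3
    push_cast at h3
    rw [← hSU]
    obtain ⟨c, hcc⟩ : ∃ c : ℤ, c = cen n m h g.1 := ⟨_, rfl⟩
    rw [← hcc] at h3 ⊢
    rcases Bool.eq_false_or_eq_true g.2 with hg | hg
    · rw [hg] at h3 ⊢
      simp only [sg, if_true, one_mul] at h3 ⊢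
      omega
    · rw [hg] at h3 ⊢
      simp only [sg, Bool.false_eq_true, if_false] at h3 ⊢
      omega
  · have h3 := abs_le.1 (h1 k)
    rw [TopL_port, if_neg hk] at h3
    push_cast at h3
    rw [← hS, abs_le]
    constructor <;> omega

/-- the half balls are disjoint from the neighbourhood of the cube (base boxes included) -/
lemma HB_base (G : Geom n q0 r6 U m h i a) {g : Face n} {F : Face n} {z : V (n + 2)}
    (hz : ∀ k, -2 ^ i ≤ z k ∧ z k ≤ 2 * 2 ^ i) : fr i a F z ∉ HB n m h U r6 g := by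
  intro hv
  obtain ⟨R, S, ρ, SU, hR, hS, hρ, hSU, gA, g1, g2, g3, g4, g5, g6, g7, g8, g9, hc, g10⟩ := TopL_num G
  have h1 := (HB_far G hv).1
  have h2 := abs_le.1 (near_bound G hz g.1 (F := F))
  rw [← hSU] at h1
  rw [← hS] at h2
  rcases Bool.eq_false_or_eq_true g.2 with hg | hg
  · rw [hg] at h1
    simp only [sg, if_true, one_mul] at h1
    omega
  · rw [hg] at h1
    simp only [sg, Bool.false_eq_true, if_false] at h1
    omega

lemma TopL_cube_near (G : Geom n q0 r6 U m h i a) {v : V (n + 2)} (hv : v ∈ cube i a) (F : Face n) :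
    ∃ z, v = fr i a F z ∧ (∀ k, -2 ^ i ≤ z k ∧ z k ≤ 2 * 2 ^ i) := by
  refine ⟨(fr i a F).symm v, (Equiv.apply_symm_apply _ _).symm, ?_⟩
  have h1 : fr i a F ((fr i a F).symm v) ∈ cube i a := by rwa [Equiv.apply_symm_apply]
  rw [fr_mem_cube] at h1
  have hp : (1 : ℤ) ≤ 2 ^ i := one_le_pow₀ (by norm_num)
  intro k
  by_cases hk : k = 0
  · subst hk; constructor <;> omega
  · have := h1.2 k hk
    constructor <;> omega

/-- P1: outside `Q` -/
lemma UT_out (G : Geom n q0 r6 U m h i a) {F : Face n} {σ : Bool} {g : Face n}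
    (hg : g ≠ (F.1, !F.2)) {v : V (n + 2)} (hv : v ∈ UT n q0 m h U r6 i a F σ g) : v ∉ cube i a := by
  obtain ⟨R, S, ρ, SU, hR, hS, hρ, hSU, gA, g1, g2, g3, g4, g5, g6, g7, g8, g9, hc, g10⟩ := TopL_num G
  intro hvc
  rcases hv with hv | ⟨x, hx, rfl⟩
  · obtain ⟨z, rfl, hz⟩ := TopL_cube_near G hvc F
    exact HB_base G hz hv
  · rw [fr_mem_cube, ← hR] at hvc
    rcases top_reg (TopL_topH G F) (dk_zero hg) hx with ⟨h1, -, -⟩ | h1 | ⟨h0, -, h1⟩ | ⟨h0, -, h1⟩
    · rw [← hρ] at h1; omega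
    · rw [← hR] at h1; omega
    · have := hvc.2 _ h0
      rw [← hR] at h1; omega
    · have := hvc.2 _ h0
      rw [← hR] at h1; omega

/-- coordinates of a point of a tree -/
lemma TopL_tree {R : ℤ} (hR : R = 2 ^ i) {F' : Face n} {z : V (n + 2)} (h1 : 1 ≤ z 0)
    (hz : ∀ k, k ≠ 0 → 0 ≤ z k ∧ z k < R) (k : Fin (n + 2)) :
    (k ≠ F'.1 ∧ a k * R ≤ fr i a F' z k ∧ fr i a F' z k < a k * R + R) ∨
    (k = F'.1 ∧ F'.2 = true ∧ fr i a F' z k = a k * R + R - 1 + z 0) ∨
    (k = F'.1 ∧ F'.2 = false ∧ fr i a F' z k = a k * R - z 0) := by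
  by_cases hk : k = F'.1
  · subst hk
    rw [fr_normal, ← hR]
    rcases Bool.eq_false_or_eq_true F'.2 with h | h
    · right; left
      refine ⟨rfl, h, ?_⟩
      rw [h, if_pos rfl]; ring
    · right; right
      refine ⟨rfl, h, ?_⟩
      rw [h]; simp
  · left
    rw [fr_lat i a F' z hk, ← hR]
    have := hz _ (swap_ne hk)
    refine ⟨hk, ?_, ?_⟩ <;> omega

/-- P2: near a tree only in the zone of the root port -/
lemma UT_tree (G : Geom n q0 r6 U m h i a) {F : Face n} {σ : Bool} {g : Face n}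
    (hg : g ≠ (F.1, !F.2)) {v : V (n + 2)} (hv : v ∈ UT n q0 m h U r6 i a F σ g) {F' : Face n}
    {z : V (n + 2)} (hz : z ∈ Col q0 (TT n q0 i) (0 : V (n + 2)))
    (hz' : z 0 ≤ (Ht n q0 (TT n q0 i) : ℤ) + 2 * rho n q0 (TT n q0 i)) (hvz : v = fr i a F' z) :
    F' = F ∧ z ∈ zoneS q0 (TT n q0 i) 0 σ := by
  obtain ⟨R, S, ρ, SU, hR, hS, hρ, hSU, gA, g1, g2, g3, g4, g5, g6, g7, g8, g9, hc, g10⟩ := TopL_num G
  have hzc : 1 ≤ z 0 ∧ ∀ k, k ≠ 0 → 0 ≤ z k ∧ z k < R := by
    refine ⟨hz.1, fun k hk => ?_⟩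
    have h1 := hz.2 k hk
    have h2 := sd_TT n (q0 := q0) (i := i) (by have := G.hi; omega) hk
    rw [h2] at h1
    push_cast at h1
    rw [← hR] at h1
    simpa using h1
  rw [← hρ] at hz'
  rcases hv with hv | ⟨x, hx, hxv⟩
  · exfalso
    rw [hvz] at hv
    apply HB_base G _ hv
    intro k
    rw [← hR]
    by_cases hk : k = 0
    · subst hk; constructor <;> omega
    · have := hzc.2 k hk
      constructor <;> omega
  · have hxz : fr i a F x = fr i a F' z := by rw [hxv, hvz]
    have hreg := top_reg (TopL_topH G F) (dk_zero hg) hx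
    rw [← hρ, ← hR] at hreg
    by_cases hF : F' = F
    · subst hF
      have hxz' : x = z := (fr i a F').injective hxz
      subst hxz'
      refine ⟨rfl, ?_⟩
      rcases hreg with ⟨h1, -, h2⟩ | h1 | ⟨h0, -, h1⟩ | ⟨h0, -, h1⟩
      · refine ⟨hz, by rw [← hρ]; omega, by rw [← hρ]; exact hz', ?_⟩
        have h3 := abs_le.1 (h2 _ (jj_ne n (TT n q0 i)))
        simp only [ln, Po, if_neg (jj_ne n (TT n q0 i)), ← hρ] at h3
        rw [← hρ]
        obtain ⟨w, hw⟩ : ∃ w : ℤ, w = ((sd n q0 (TT n q0 i) (jj n (TT n q0 i)) / 2 : ℕ) : ℤ) := ⟨_, rfl⟩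
        rw [← hw] at h3 ⊢
        cases σ
        · simp only [sg, Bool.false_eq_true, if_false] at h3 ⊢
          omega
        · simp only [sg, if_true, one_mul] at h3 ⊢
          omega
      · exfalso; omega
      · exfalso
        have := hzc.2 _ h0
        omega
      · exfalso
        have := hzc.2 _ h0
        omega
    · exfalso
      have hlow : 1 ≤ x 0 → False := by
        intro hx0
        have e1 := TopL_tree (a := a) (F' := F') hR hzc.1 hzc.2 F.1
        rw [← hxz, fr_normal, ← hR] at e1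
        have e : (a F.1 + 1) * R = a F.1 * R + R := by ring
        rw [e] at e1
        rcases e1 with ⟨k1, k2, k3⟩ | ⟨k1, k2, k3⟩ | ⟨k1, k2, k3⟩
        · rcases Bool.eq_false_or_eq_true F.2 with h | h
          · rw [h, if_pos rfl] at k2 k3; omega
          · rw [h] at k2 k3
            simp only [Bool.false_eq_true, if_false] at k2 k3
            omega
        · rcases Bool.eq_false_or_eq_true F.2 with h | h
          · exact hF (Prod.ext k1.symm (by rw [h, k2]))
          · rw [h] at k3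
            simp only [Bool.false_eq_true, if_false] at k3
            omega
        · rcases Bool.eq_false_or_eq_true F.2 with h | h
          · rw [h, if_pos rfl] at k3; omega
          · exact hF (Prod.ext k1.symm (by rw [h, k2]))
      have hlat : dk F g ≠ 0 → g.1 ≠ F.1 := by
        intro h0 h1
        apply h0
        unfold dk
        rw [h1, Equiv.swap_apply_right]
      have hcoord : dk F g ≠ 0 → fr i a F x g.1 = a g.1 * R + x (dk F g) := by
        intro h0
        rw [fr_lat i a F x (hlat h0), ← hR]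
        rfl
      rcases hreg with ⟨h1, -, -⟩ | h1 | ⟨h0, -, h1⟩ | ⟨h0, -, h1⟩
      · exact hlow (by omega)
      · exact hlow (by omega)
      · have e1 := TopL_tree (a := a) (F' := F') hR hzc.1 hzc.2 g.1
        rw [← hxz, hcoord h0] at e1
        rcases e1 with ⟨k1, k2, k3⟩ | ⟨k1, k2, k3⟩ | ⟨k1, k2, k3⟩ <;> omega
      · have e1 := TopL_tree (a := a) (F' := F') hR hzc.1 hzc.2 g.1
        rw [← hxz, hcoord h0] at e1
        rcases e1 with ⟨k1, k2, k3⟩ | ⟨k1, k2, k3⟩ | ⟨k1, k2, k3⟩ <;> omega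

/-- P3: bounded coordinates -/
lemma UT_bound (G : Geom n q0 r6 U m h i a) {F : Face n} {σ : Bool} {g : Face n}
    (hg : g ≠ (F.1, !F.2)) {v : V (n + 2)} (hv : v ∈ UT n q0 m h U r6 i a F σ g) (k : Fin (n + 2)) :
    |v k - cen n m h k| ≤ 2 ^ (m - h + 7) * U := by
  obtain ⟨R, S, ρ, SU, hR, hS, hρ, hSU, gA, g1, g2, g3, g4, g5, g6, g7, g8, g9, hc, g10⟩ := TopL_num G
  rcases hv with hv | ⟨x, hx, rfl⟩
  · obtain ⟨h1, h2, h3⟩ := HB_far G hv
    by_cases hk : k = g.1
    · subst hk
      rw [← hSU] at h1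
      rw [gA] at h2 ⊢
      rw [abs_le]
      rcases Bool.eq_false_or_eq_true g.2 with hg | hg
      · rw [hg] at h1 h2
        simp only [sg, if_true, one_mul] at h1 h2
        constructor <;> omega
      · rw [hg] at h1 h2
        simp only [sg, Bool.false_eq_true, if_false] at h1 h2
        constructor <;> omega
    · have := h3 k hk
      rw [gA]
      rw [← hS] at this
      omega
  · have h1 := top_bd (TopL_topH G F) (dk_zero hg) hx
    have h2 := (fr_dist (i := i) (a := a) (F := F) (z := x)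
      (z' := (fr i a F).symm (cen n m h)) (r := ((2 ^ (m - h + 7) * U : ℕ) : ℤ))).2 h1 k
    rw [Equiv.apply_symm_apply] at h2
    push_cast at h2
    exact h2

/-- P4: separation, same face, lateral direction `k` -/
lemma UT_same (G : Geom n q0 r6 U m h i a) {F : Face n} {k : Fin (n + 2)} (hk : k ≠ F.1) :
    Disjoint (UT n q0 m h U r6 i a F false (k, false)) (UT n q0 m h U r6 i a F true (k, true)) := by
  obtain ⟨R, S, ρ, SU, hR, hS, hρ, hSU, gA, g1, g2, g3, g4, g5, g6, g7, g8, g9, hc, g10⟩ := TopL_num G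
  have hkF : ∀ s, dk F (k, s) ≠ 0 := fun s => swap_ne hk
  have hδ : ∀ s, dδ F (k, s) = s := fun s => by
    unfold dδ
    rw [if_neg hk]
  have hc1 := hc k
  rw [Set.disjoint_left]
  intro v hv hv'
  have lo1 : v k ≤ a k * R + 2 ^ (i - 1) - 15 * ρ := by
    rcases hv with hv | ⟨x, hx, rfl⟩
    · have h1 := (HB_far G hv).1
      rw [← hSU] at h1
      have hcen : cen n m h k = 2 ^ (m - h - 1) := rfl
      dsimp only at h1
      rw [hcen] at h1
      simp only [sg, Bool.false_eq_true, if_false] at h1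
      omega
    · have h1 := (top_side (TopL_topH G F) (hkF false) hx).2 (hδ false)
      rw [fr_lat i a F x hk, ← hR]
      rw [← hρ] at h1
      simp only [sg, Bool.false_eq_true, if_false] at h1
      have h2 : x (Equiv.swap 0 F.1 k) = x (dk F (k, false)) := rfl
      rw [h2]
      omega
  have lo2 : a k * R + 2 ^ (i - 1) + 15 * ρ ≤ v k := by
    rcases hv' with hv | ⟨x, hx, rfl⟩
    · have h1 := (HB_far G hv).1
      rw [← hSU] at h1
      have hcen : cen n m h k = 2 ^ (m - h - 1) := rfl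
      dsimp only at h1
      rw [hcen] at h1
      simp only [sg, if_true, one_mul] at h1
      omega
    · have h1 := (top_side (TopL_topH G F) (hkF true) hx).1 (hδ true)
      rw [fr_lat i a F x hk, ← hR]
      rw [← hρ] at h1
      simp only [sg, if_true, one_mul] at h1
      have h2 : x (Equiv.swap 0 F.1 k) = x (dk F (k, true)) := rfl
      rw [h2]
      omega
  omega

/-- P5: separation, different faces: height over `F` at least `1`, at most `0` -/
lemma UT_diff (G : Geom n q0 r6 U m h i a) {F F' : Face n} (hF : F ≠ F') :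
    Disjoint (UT n q0 m h U r6 i a F false F) (UT n q0 m h U r6 i a F' false (F.1, !F.2)) := by
  obtain ⟨R, S, ρ, SU, hR, hS, hρ, hSU, gA, g1, g2, g3, g4, g5, g6, g7, g8, g9, hc, g10⟩ := TopL_num G
  have hc1 := hc F.1
  have hcen : cen n m h F.1 = 2 ^ (m - h - 1) := rfl
  rw [Set.disjoint_left]
  intro v hv hv'
  have up : (F.2 = true → a F.1 * R + R ≤ v F.1) ∧ (F.2 = false → v F.1 < a F.1 * R) := by
    rcases hv with hv | ⟨x, hx, rfl⟩
    · have h1 := (HB_far G hv).1
      rw [← hSU, hcen] at h1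
      refine ⟨fun h => ?_, fun h => ?_⟩
      · rw [h] at h1
        simp only [sg, if_true, one_mul] at h1
        omega
      · rw [h] at h1
        simp only [sg, Bool.false_eq_true, if_false] at h1
        omega
    · have hd : dk F F = 0 := Equiv.swap_apply_right _ _
      have hd' : dδ F F = true := by unfold dδ; rw [if_pos rfl]
      unfold tR at hx
      rw [hd, hd'] at hx
      have h1 := top_zero (TopL_topH G F) hx
      rw [← hρ] at h1
      rw [fr_normal, ← hR]
      have e : (a F.1 + 1) * R = a F.1 * R + R := by ring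
      rw [e]
      refine ⟨fun h => ?_, fun h => ?_⟩
      · rw [h, if_pos rfl]; omega
      · rw [h]
        simp only [Bool.false_eq_true, if_false]
        omega
  have dn : (F.2 = true → v F.1 < a F.1 * R + R) ∧ (F.2 = false → a F.1 * R ≤ v F.1) := by
    rcases hv' with hv | ⟨x, hx, rfl⟩
    · have h1 := (HB_far G hv).1
      dsimp only at h1
      rw [← hSU, hcen] at h1
      refine ⟨fun h => ?_, fun h => ?_⟩
      · rw [h] at h1
        simp only [sg, Bool.not_true, Bool.false_eq_true, if_false] at h1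
        omega
      · rw [h] at h1
        simp only [sg, Bool.not_false, if_true, one_mul] at h1
        omega
    · by_cases h1 : F.1 = F'.1
      · have h2 : F'.2 = !F.2 := by
          have : F.2 ≠ F'.2 := fun h' => hF (Prod.ext h1 h')
          cases hh : F.2 <;> cases hh' : F'.2 <;> rw [hh, hh'] at this <;> simp_all
        have hg : (F.1, !F.2) = F' := Prod.ext h1 h2.symm
        rw [hg] at hx
        have hd : dk F' F' = 0 := Equiv.swap_apply_right _ _
        have hd' : dδ F' F' = true := by unfold dδ; rw [if_pos rfl]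
        unfold tR at hx
        rw [hd, hd'] at hx
        have h3 := top_zero (TopL_topH G F') hx
        rw [← hρ] at h3
        rw [h1, fr_normal, ← hR, ← h1, h2]
        have e : (a F.1 + 1) * R = a F.1 * R + R := by ring
        rw [e]
        refine ⟨fun h => ?_, fun h => ?_⟩
        · rw [h]
          simp only [Bool.not_true, Bool.false_eq_true, if_false]
          omega
        · rw [h]
          simp only [Bool.not_false, if_true]
          omega
      · have hk0 : dk F' (F.1, !F.2) ≠ 0 := swap_ne h1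
        have hδ : dδ F' (F.1, !F.2) = !F.2 := by
          unfold dδ
          rw [if_neg h1]
        have h3 := top_side (TopL_topH G F') hk0 hx
        rw [fr_lat i a F' x h1, ← hR]
        rw [← hρ] at h3
        have h4 : x (Equiv.swap 0 F'.1 F.1) = x (dk F' (F.1, !F.2)) := rfl
        rw [h4]
        refine ⟨fun h => ?_, fun h => ?_⟩
        · have h5 := h3.2 (by rw [hδ, h]; rfl)
          simp only [sg, Bool.false_eq_true, if_false] at h5
          omega
        · have h5 := h3.1 (by rw [hδ, h]; rfl)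
          simp only [sg, Bool.false_eq_true, if_false] at h5
          omega
  rcases Bool.eq_false_or_eq_true F.2 with h | h
  · have := up.1 h
    have := dn.1 h
    omega
  · have := up.2 h
    have := dn.2 h
    omega

end Pool.Agent.H94.HF
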