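import Pool.Agent.H94.HF.FlL
import Pool.Agent.H94.HF.TopL

/-!
# HF, module LinkL: the deterministic joining statement
-/

open MeasureTheory Filter Topology
open Pool.Agent.H17.IIC Pool.Agent.H41.QC Pool.Agent.H47.GM Pool.Agent.H17.QA
open Pool.Agent.H94.HG Pool.Agent.H94.BM Pool.Agent.H47.HJ Pool.Agent.H30.HG

namespace Pool.Agent.H94.HF

variable {n : ℕ} {q0 r6 U m h i : ℕ} {a : V (n + 2)}

lemma slab_finite (C : ℝ) (u : V (n + 2)) (α β : ℕ) : (slab C u α β).Finite := by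
  refine (Fintype.piFinset fun _ : Fin (n + 2) => Finset.Icc (-⌈C * β⌉) ⌈C * β⌉).finite_toSet.subset ?_
  rintro x ⟨-, -, hx⟩
  rw [Finset.mem_coe, Fintype.mem_piFinset]
  intro k
  have h1 := hx k
  have h2 : ((|x k| : ℤ) : ℝ) ≤ ((⌈C * β⌉ : ℤ) : ℝ) := by
    rw [Int.cast_abs]
    exact h1.trans (Int.le_ceil _)
  have h3 : |x k| ≤ ⌈C * β⌉ := by exact_mod_cast h2
  rw [Finset.mem_Icc]
  exact abs_le.1 h3

/-- bounded coordinates: in the image of the slab -/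
lemma mem_slab (k₀ : Fin (n + 2)) (s : Bool) {v : V (n + 2)}
    (hv : ∀ k, |v k - cen n m h k| ≤ 2 ^ (m - h + 7) * U) :
    v ∈ gax n U m h k₀ s '' slab (4 * U) (uvec n U) (2 ^ (m - h + 7)) (3 * 2 ^ (m - h + 7)) := by
  refine ⟨(gax n U m h k₀ s).symm v, ?_, Equiv.apply_symm_apply _ _⟩
  refine gax_slab (k₀ := k₀) (s := s) ?_ ?_
  · rw [Equiv.apply_symm_apply]
    exact hv k₀
  · intro k
    rw [Equiv.apply_symm_apply]
    refine (hv k).trans ?_
    have : (0 : ℤ) ≤ 2 ^ (m - h + 7) * U := by positivity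
    linarith

/-- change of configuration -/
lemma splice {ω ω' : El (n + 2) → Bool} {used : X n → Prop}
    (hsp : ∀ e, e ∉ Fl0S n m h U r6 → (∀ c ∈ CsL n q0 i, e ∉ FlL q0 i a c) → ω e = ω' e)
    (h0 : ∀ e ∈ Fl0S n m h U r6, ω e = true)
    (hu : ∀ c ∈ CsL n q0 i, used c → ∀ e ∈ FlL q0 i a c, ω e = true) {A : Set (V (n + 2))}
    (hA : ∀ c ∈ CsL n q0 i, ¬ used c → ∀ e ∈ FlL q0 i a c, e ∉ InE A) :
    ∀ e ∈ InE A, ω' e = true → ω e = true := by
  classical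
  intro e he ho
  by_cases h1 : e ∈ Fl0S n m h U r6
  · exact h0 e h1
  by_cases h2 : ∀ c ∈ CsL n q0 i, e ∉ FlL q0 i a c
  · rw [hsp e h1 h2]; exact ho
  push Not at h2
  obtain ⟨c, hc, hce⟩ := h2
  by_cases hcu : used c
  · exact hu c hc hcu e hce
  · exact absurd he (hA c hc hcu e hce)

/-- the region of a top route contains no element of a base box -/
lemma UT_noFl (G : Geom n q0 r6 U m h i a) {F : Face n} {σ : Bool} {g : Face n}
    (hg : g ≠ (F.1, !F.2)) {c : X n} (hc : c ∈ CsL n q0 i) {e : El (n + 2)}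
    (he : e ∈ FlL q0 i a c) : e ∉ InE (UT n q0 m h U r6 i a F σ g) := by
  intro hE
  obtain ⟨z, hz, hzc, hzh⟩ := FlL_vertex he
  have h1 := hE _ hz
  rw [mem_CsL] at hc
  have h2 : z ∈ Col q0 (TT n q0 i) (0 : V (n + 2)) := by
    have := Col_nodes hc.1
    rw [hc.2] at this
    exact this hzc
  have hbb := Ht_base n q0 (TT n q0 i)
  have h3 : ((hb n q0 + 8 * rho n q0 0 + 6 * rho n q0 (TT n q0 i) : ℕ) : ℤ) ≤ (Ht n q0 (TT n q0 i) : ℕ) := by
    exact_mod_cast hbb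
  push_cast at h3
  have hr : (1 : ℤ) ≤ rho n q0 (TT n q0 i) := by exact_mod_cast rho_pos n q0 _
  obtain ⟨-, h4⟩ := UT_tree G hg h1 h2 (by linarith) rfl
  obtain ⟨-, h5, -⟩ := h4
  linarith

/-- `Q` is disjoint from the top regions -/
lemma UT_disj_cube (G : Geom n q0 r6 U m h i a) {F : Face n} {σ : Bool} {g : Face n}
    (hg : g ≠ (F.1, !F.2)) :
    Disjoint (UT n q0 m h U r6 i a F σ g) (cube i a : Set (V (n + 2))) := by
  rw [Set.disjoint_left]
  intro v hv hv'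
  exact UT_out G hg hv (Finset.mem_coe.1 hv')

variable {κ : Kind} {p : unitInterval} (RS : RoadSys κ (n + 2) p)

/-- top regions against the trees -/
lemma UT_zone (G : Geom n q0 r6 U m h i a) (ω' : El (n + 2) → Bool) {F : Face n} {σ : Bool} {g : Face n}
    (hg : g ≠ (F.1, !F.2)) (F' : Face n) {v : V (n + 2)} (hv : v ∈ UT n q0 m h U r6 i a F σ g)
    (hR : v ∈ (geo RS q0 i a ω').Reg (tree q0 F' (TT n q0 i) 0)) :
    v ∈ (geo RS q0 i a ω').zone (F, (TT n q0 i, 0)) σ := by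
  obtain ⟨z, ⟨hz1, hz2⟩, rfl⟩ := Reg_sub RS q0 i a ω' F' (TT n q0 i) 0 hR
  obtain ⟨rfl, h2⟩ := UT_tree G hg hv hz1 hz2 rfl
  exact ⟨z, h2, rfl⟩

/-- regions of the trees: bounded -/
lemma Reg_near (G : Geom n q0 r6 U m h i a) (ω' : El (n + 2) → Bool) (F : Face n) {v : V (n + 2)}
    (hR : v ∈ (geo RS q0 i a ω').Reg (tree q0 F (TT n q0 i) 0)) (k : Fin (n + 2)) :
    |v k - cen n m h k| ≤ 2 ^ (m - h + 7) * U := by
  obtain ⟨z, ⟨hz1, hz2⟩, rfl⟩ := Reg_sub RS q0 i a ω' F (TT n q0 i) 0 hR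
  have hO := over_of_Col G.hi hz1
  have h8 : ((8 * Ht n q0 (TT n q0 i) : ℕ) : ℤ) ≤ ((2 ^ i : ℕ) : ℤ) := by exact_mod_cast G.hH
  push_cast at h8
  have hr : ((2 ^ (n + 11) * rho n q0 (TT n q0 i) : ℕ) : ℤ) = ((2 ^ i : ℕ) : ℤ) := by
    rw [rho_TT n G.hi]
  push_cast at hr
  have hr2 : (2 : ℤ) * rho n q0 (TT n q0 i) ≤ 2 ^ i := by
    rw [← hr]
    have : (2 : ℤ) ≤ 2 ^ (n + 11) := by
      calc (2 : ℤ) = 2 ^ 1 := by norm_num
        _ ≤ 2 ^ (n + 11) := pow_le_pow_right₀ (by norm_num) (by omega)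
    nlinarith [this, (Nat.cast_nonneg (rho n q0 (TT n q0 i)) : (0 : ℤ) ≤ _)]
  have hP : (0 : ℤ) < 2 ^ i := by positivity
  refine (near_bound G (F := F) (z := z) ?_ k).trans ?_
  · intro k'
    by_cases hk : k' = 0
    · subst hk
      constructor
      · linarith [hO.1]
      · linarith
    · have := hO.2 k' hk
      constructor <;> linarith [this.1, this.2]
  · have hU : (1 : ℤ) ≤ U := by exact_mod_cast G.hU
    have e : (2 : ℤ) ^ (m - h + 7) = 128 * 2 ^ (m - h) := by ring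
    rw [e]
    have : (0 : ℤ) < 2 ^ (m - h) := by positivity
    nlinarith

/-- the cube: bounded -/
lemma cube_near (G : Geom n q0 r6 U m h i a) {v : V (n + 2)} (hv : v ∈ cube i a) (k : Fin (n + 2)) :
    |v k - cen n m h k| ≤ 2 ^ (m - h + 7) * U := by
  have hP : (0 : ℤ) < 2 ^ i := by positivity
  set F : Face n := ((0 : Fin (n + 2)), false) with hF
  have hv' : fr i a F ((fr i a F).symm v) ∈ cube i a := by rw [Equiv.apply_symm_apply]; exact hv
  rw [fr_mem_cube] at hv'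
  have h1 := near_bound G (F := F) (z := (fr i a F).symm v) ?_ k
  · rw [Equiv.apply_symm_apply] at h1
    refine h1.trans ?_
    have hU : (1 : ℤ) ≤ U := by exact_mod_cast G.hU
    have e : (2 : ℤ) ^ (m - h + 7) = 128 * 2 ^ (m - h) := by ring
    rw [e]
    have : (0 : ℤ) < 2 ^ (m - h) := by positivity
    nlinarith
  · intro k'
    by_cases hk : k' = 0
    · subst hk
      constructor <;> linarith [hv'.1.1, hv'.1.2]
    · have := hv'.2 k' hk
      constructor <;> linarith [this.1, this.2]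

end Pool.Agent.H94.HF
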