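import Pool.Agent.H30.HG.Road
import Pool.Agent.H30.HG.TopA
import Pool.Agent.H30.HG.TopC
import Pool.Agent.H47.HJ.RwT
import Pool.Agent.H94.HF.GeomL

/-!
# HF, module TopRd: the road from the port to the root of a tree
-/

open MeasureTheory Filter Topology
open Pool.Agent.H17.IIC Pool.Agent.H41.QC Pool.Agent.H47.GM Pool.Agent.H17.QA
open Pool.Agent.H94.HG Pool.Agent.H47.HJ Pool.Agent.H30.HG

namespace Pool.Agent.H94.HF

variable {n : ℕ} {q0 r6 U m h i : ℕ} {a : V (n + 2)}

private lemma TopRd_sg (s : Bool) : sg s * sg s = 1 := by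
  cases s <;> simp [sg]

private lemma TopRd_mem {g : Face n} {v : V (n + 2)} :
    v ∈ HB n m h U r6 g ↔ (∀ k, |v k - Port n m h U g k| ≤ ((32 * r6 : ℕ) : ℤ)) ∧
      sg g.2 * (v g.1 - cen n m h g.1) ≤ 2 ^ (m - h + 7) * U := by
  unfold HB
  rw [Finset.mem_filter, mem_Bx]

private lemma TopRd_conv {g : Face n} {x y v : V (n + 2)} (hx : x ∈ HB n m h U r6 g)
    (hy : y ∈ HB n m h U r6 g) (hv : ∀ k, min (x k) (y k) ≤ v k ∧ v k ≤ max (x k) (y k)) :
    v ∈ HB n m h U r6 g := by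
  rw [TopRd_mem] at hx hy ⊢
  refine ⟨fun k => ?_, ?_⟩
  · have h1 := hx.1 k
    have h2 := hy.1 k
    have h3 := hv k
    rw [abs_le] at h1 h2 ⊢
    rcases le_total (x k) (y k) with h | h
    · rw [min_eq_left h, max_eq_right h] at h3
      constructor <;> linarith [h1.1, h1.2, h2.1, h2.2, h3.1, h3.2]
    · rw [min_eq_right h, max_eq_left h] at h3
      constructor <;> linarith [h1.1, h1.2, h2.1, h2.2, h3.1, h3.2]
  · have h1 := hx.2
    have h2 := hy.2
    have h3 := hv g.1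
    rcases le_total (x g.1) (y g.1) with h | h
    · rw [min_eq_left h, max_eq_right h] at h3
      cases hg : g.2 <;> rw [hg] at h1 h2 <;>
        simp only [sg, Bool.false_eq_true, if_false, if_true] at h1 h2 ⊢ <;> linarith [h3.1, h3.2]
    · rw [min_eq_right h, max_eq_left h] at h3
      cases hg : g.2 <;> rw [hg] at h1 h2 <;>
        simp only [sg, Bool.false_eq_true, if_false, if_true] at h1 h2 ⊢ <;> linarith [h3.1, h3.2]

/-- path in a fully open box cut by a half space (staircase, `rw_St`, `St_bd`) -/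
lemma HB_path {κ : Kind} {ω : El (n + 2) → Bool} {g : Face n}
    (hω : ∀ x ∈ HB n m h U r6 g, ∀ y ∈ HB n m h U r6 g, ω s(x, y) = true)
    {x y : V (n + 2)} (hx : x ∈ HB n m h U r6 g) (hy : y ∈ HB n m h U r6 g) :
    Rw κ ω (HB n m h U r6 g : Set (V (n + 2))) x y (HB n m h U r6 g).card := by
  have hmem : ∀ v ∈ St x y, v ∈ HB n m h U r6 g := fun v hv =>
    TopRd_conv hx hy fun k => St_bd hv k
  have h1 := rw_St (κ := κ) (ω := ω) (p := x) (q := y) (U := (HB n m h U r6 g : Set (V (n + 2))))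
    (fun v hv => Finset.mem_coe.2 (hmem v hv))
    (fun v hv w hw => hω v (hmem v hv) w (hmem w hw))
  exact Pool.Agent.H94.BM.rw_mono (fun _ h => h) (fun _ h => h)
    (Finset.card_le_card fun v hv => hmem v hv) h1

/-- ROAD from the port `g` to the root of the tree over `F`: `HB_path` from the port to the hub of the last
requirement `(tpe … (16 r6), r6)` (`hub_mem`, `top_end`, `HB_fr`, `port_fr`), then `road_of_lk` with `lk_top` (reversed), `rw_union` -/
theorem top_road {κ : Kind} {p : unitInterval} (RS : RoadSys κ (n + 2) p)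
    (G : Geom n q0 r6 U m h i a) (F : Face n) (σ : Bool) (g : Face n) (hg : g ≠ (F.1, !F.2))
    {ω ω' : El (n + 2) → Bool}
    (hω0 : ∀ x ∈ HB n m h U r6 g, ∀ y ∈ HB n m h U r6 g, ω s(x, y) = true)
    (hreg : ∀ q ∈ tR n q0 m h U r6 i a F σ g, tr (fr i a F) ω' ∈ RS.reg q.1 q.2)
    (hω : ∀ e ∈ InE (fr i a F '' Zr (tR n q0 m h U r6 i a F σ g)), ω' e = true → ω e = true) :
    Rw κ ω (UT n q0 m h U r6 i a F σ g) (Port n m h U g)
      (fr i a F (RS.hub (ln q0 (TT n q0 i) 0 σ) (rho n q0 (TT n q0 i)) (tr (fr i a F) ω')))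
      ((HB n m h U r6 g).card +
        ∑ q ∈ tR n q0 m h U r6 i a F σ g, RS.lam q.1 q.2 (tr (fr i a F) ω')) := by
  have H : TopH n q0 i ((fr i a F).symm (cen n m h)) (2 ^ (m - h + 7) * U) r6 :=
    topH_of G.hcube G.hi G.hH G.hU G.hr G.hr6 F
  have hlk := lk_top H σ (k := dk F g) (δ := dδ F g) (dk_zero hg)
  have hreg' : ∀ q ∈ tR n q0 m h U r6 i a F σ g, 1 ≤ q.2 ∧ tr (fr i a F) ω' ∈ RS.reg q.1 q.2 :=
    fun q hq => ⟨(top_rad H hq).2.1, hreg q hq⟩
  have hroad := road_of_lk RS (isAut_fr i a F) (ω := ω) (ω' := ω')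
    (Z := tR n q0 m h U r6 i a F σ g) hreg' hω hlk.symm
  -- the port and the last hub are in the half ball
  have hend := hlk.right
  have hhub := RS.hub_mem _ _ _ (hreg' _ hend).2
  have hy : fr i a F (RS.hub (tpe ((fr i a F).symm (cen n m h)) (2 ^ (m - h + 7) * U) (dk F g)
      (dδ F g) (16 * r6)) r6 (tr (fr i a F) ω')) ∈ HB n m h U r6 g := by
    rw [HB_fr hg]
    exact top_end hhub
  have hx : Port n m h U g ∈ HB n m h U r6 g := by
    rw [← port_fr (i := i) (a := a) hg m h U, HB_fr hg]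
    refine ⟨fun k => ?_, ?_⟩
    · rw [sub_self, abs_zero]
      positivity
    · unfold tpe
      rw [Function.update_self]
      have h3 := TopRd_sg (dδ F g)
      have e : sg (dδ F g) * ((fr i a F).symm (cen n m h) (dk F g) +
          sg (dδ F g) * (((2 ^ (m - h + 7) * U : ℕ) : ℤ) - ((0 : ℕ) : ℤ)) -
          (fr i a F).symm (cen n m h) (dk F g)) = ((2 ^ (m - h + 7) * U : ℕ) : ℤ) := by
        push_cast
        linear_combination ((2 : ℤ) ^ (m - h + 7) * U) * h3
      exact le_of_eq e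
  exact rw_union (HB_path hω0 hx hy) hroad

end Pool.Agent.H94.HF
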