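import Pool.Agent.H42.HG.LeafGeo
import Pool.Agent.H47.HJ.Cost
import Pool.Agent.H47.HJ.Machine
import Pool.Agent.H94.HF.AncL
import Pool.Agent.H94.HF.CostL
import Pool.Agent.H94.HF.LinkL
import Pool.Agent.H94.HF.TopRd

/-!
# HF, module LinkM: the deterministic joining statement, final form
-/

open MeasureTheory Filter Topology
open Pool.Agent.H17.IIC Pool.Agent.H41.QC Pool.Agent.H47.GM Pool.Agent.H17.QA
open Pool.Agent.H94.HG Pool.Agent.H94.BM Pool.Agent.H47.HJ Pool.Agent.H30.HG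

namespace Pool.Agent.H94.HF

variable {n : ℕ} {q0 r6 U m h i : ℕ} {a : V (n + 2)}

lemma port_left (n U m h : ℕ) (k : Fin (n + 2)) (s : Bool) :
    gax n U m h k s ((2 ^ (m - h + 7) : ℤ) • uvec n U) = Port n m h U (k, !s) := by
  rw [gax_left, Port]
  congr 2
  cases s <;> simp [sg]

lemma port_right (n U m h : ℕ) (k : Fin (n + 2)) (s : Bool) :
    gax n U m h k s ((3 * 2 ^ (m - h + 7) : ℤ) • uvec n U) = Port n m h U (k, s) := by
  rw [gax_right, Port]

lemma mem_TL {q0 i : ℕ} {a : V (n + 2)} {x : X n} {q : V (n + 2) × ℕ} (hq : q ∈ TN q0 x.2.1 x.2.2) :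
    (⟨fr i a x.1, q.1, q.2⟩ : Req (n + 2)) ∈ TL q0 i a x := by
  classical
  exact Finset.mem_image_of_mem _ hq

lemma mem_T0L {F : Face n} {σ : Bool} {g : Face n} (hg : g ≠ (F.1, !F.2)) {q : V (n + 2) × ℕ}
    (hq : q ∈ tR n q0 m h U r6 i a F σ g) :
    (⟨fr i a F, q.1, q.2⟩ : Req (n + 2)) ∈ T0L n q0 m h U r6 i a := by
  classical
  unfold T0L
  rw [Finset.mem_biUnion]
  refine ⟨(F, σ, g), ?_, Finset.mem_image_of_mem _ hq⟩
  rw [Finset.mem_filter]
  exact ⟨Finset.mem_univ _, hg⟩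

lemma mem_Fl0S {g : Face n} {x y : V (n + 2)} (hx : x ∈ HB n m h U r6 g) (hy : y ∈ HB n m h U r6 g) :
    s(x, y) ∈ Fl0S n m h U r6 := by
  classical
  unfold Fl0S
  rw [Finset.mem_biUnion]
  exact ⟨g, Finset.mem_univ _, Finset.mem_image.2 ⟨(x, y), Finset.mem_product.2 ⟨hx, hy⟩, rfl⟩⟩

lemma LinkM_self_ne (F : Face n) : F ≠ (F.1, !F.2) := by
  intro h'
  have h1 : F.2 = !F.2 := (Prod.mk.inj h').2
  cases h2 : F.2 <;> rw [h2] at h1 <;> cases h1

lemma LinkM_flip_ne {F F' : Face n} (hne : F ≠ F') : ((F.1, !F.2) : Face n) ≠ (F'.1, !F'.2) := by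
  intro h'
  apply hne
  have h1 : F.1 = F'.1 := (Prod.mk.inj h').1
  have h2 : (!F.2) = !F'.2 := (Prod.mk.inj h').2
  have h3 : F.2 = F'.2 := by
    have := congrArg (fun b => !b) h2
    simpa using this
  exact Prod.ext h1 h3

lemma LinkM_card_face (n : ℕ) : Fintype.card (Face n) = (n + 2) * 2 := by
  simp [Face]

variable {κ : Kind} {p : unitInterval} (RS : RoadSys κ (n + 2) p)

/-- THE LINK -/
theorem link_ok [DecidableEq (X n)] (G : Geom n q0 r6 U m h i a) (hHB : ∀ g, (HB n m h U r6 g).card ≤ (64 * r6 + 1) ^ (n + 2))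
    (ω ω' : El (n + 2) → Bool) (D : TData (n + 2))
    (J : Finset (Fin D.k)) (v : Fin D.k → ℝ)
    (hD : TOK (cube i a : Set (V (n + 2))) D)
    (hF : (TFam κ ω (cube i a : Set (V (n + 2))) D).Nonempty)
    (hJ : J.Nonempty) (hv : ∀ j ∈ J, 0 ≤ v j)
    (hc2 : ∀ c, ((J ×ˢ (Finset.univ : Finset Bool)).filter fun js =>
      cellL q0 i a (D.pt js.1 js.2) = c).card ≤ 2)
    (hsp : ∀ e, e ∉ Fl0S n m h U r6 → (∀ c ∈ CsL n q0 i, e ∉ FlL q0 i a c) → ω e = ω' e)
    (h0 : ∀ e ∈ Fl0S n m h U r6, ω e = true)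
    (hfl : ∀ j ∈ J, ∀ s, ∀ e ∈ FlL q0 i a (cellL q0 i a (D.pt j s)), ω e = true)
    (hT0 : ∀ q ∈ T0L n q0 m h U r6 i a, q.ok RS ω')
    (hT : ∀ j ∈ J, ∀ s, ∀ ν ∈ ancL n q0 i (cellL q0 i a (D.pt j s)), ∀ q ∈ TL q0 i a ν, q.ok RS ω') :
    ∃ S ⊆ J, S.Nonempty ∧ ∑ j ∈ J, v j ≤ 2 * (n + 2) * ∑ j ∈ S, v j ∧
      ∃ (π : Equiv.Perm (Fin (n + 2))) (τ : Fin (n + 2) → Bool) (N : ℕ),
        N ≤ ∑ j ∈ S, D.n j + 2 * mB n q0 * J.card + 2 * (64 * r6 + 1) ^ (n + 2)
          + 4 * ∑ q ∈ T0L n q0 m h U r6 i a, q.cost RS ω'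
          + 4 * ∑ ν ∈ (J ×ˢ (Finset.univ : Finset Bool)).biUnion
              (fun js => ancL n q0 i (cellL q0 i a (D.pt js.1 js.2))), ∑ q ∈ TL q0 i a ν, q.cost RS ω' ∧
        (projS S (TFam κ ω (cube i a : Set (V (n + 2))) D)).ncard ≤
          Zc κ (tr (gAut n U m h π τ) ω) (slab (4 * U) (uvec n U) (2 ^ (m - h + 7))
            (3 * 2 ^ (m - h + 7))) ((2 ^ (m - h + 7) : ℤ) • uvec n U)
            ((3 * 2 ^ (m - h + 7) : ℤ) • uvec n U) N := by
  set ce : En D → X n := fun e => cellL q0 i a (pe D e) with hce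
  set g := geo RS q0 i a ω' with hg
  set K := KK RS q0 i a ω' with hK
  set T := TT n q0 i with hTT
  have hi10 : q0 + n + 10 ≤ i := by have := G.hi; omega
  -- used cells are open
  have hu : ∀ c ∈ CsL n q0 i, (∃ e : En D, e.1 ∈ J ∧ ce e = c) → ∀ e ∈ FlL q0 i a c, ω e = true := by
    rintro c - ⟨e, he, rfl⟩ e' he'
    exact hfl e.1 he e.2 e' he'
  have spl : ∀ {A : Set (V (n + 2))}, (∀ c ∈ CsL n q0 i, ¬ (∃ e : En D, e.1 ∈ J ∧ ce e = c) →
      ∀ e ∈ FlL q0 i a c, e ∉ InE A) → ∀ e ∈ InE A, ω' e = true → ω e = true :=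
    fun hA => splice hsp h0 hu hA
  have hce_mem : ∀ e, ce e ∈ CsL n q0 i := fun e => cellL_mem q0 i a _
  have hcard : ∀ x, nE D J ce x ≤ 2 := by
    intro x
    have h1 := hc2 x
    unfold nE
    refine le_trans (le_of_eq ?_) h1
    apply congrArg
    ext e
    simp only [Finset.mem_filter]
    exact Iff.rfl
  -- leaves
  have hleaf : ∀ F : Face n, ∀ c, (0, c) ∈ nodes q0 T (0 : V (n + 2)) →
      LeafOK κ ω D J g ce (F, (0, c)) (mB n q0 + K (F, (0, c))) := by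
    intro F c hc
    by_cases hus : ∃ e : En D, e.1 ∈ J ∧ ce e = (F, (0, c))
    · have hcC : ((F, (0, c)) : X n) ∈ CsL n q0 i := mem_CsL.2 ⟨hc, rfl⟩
      refine Pool.Agent.H42.HG.leaf_ok RS hD hF ?_ ?_ ?_ ?_
      · intro e he hex
        obtain ⟨z, hz1, hz2⟩ := cellL_spec hi10 (a := a) (v := pe D e) (by
          have := hD.2 e.1
          unfold pe TData.pt
          cases e.2
          · simpa using this.1
          · simpa using this.2.1)
        rw [show cellL q0 i a (pe D e) = (F, (0, c)) from hex] at hz1 hz2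
        exact ⟨z, hz1, hz2.symm⟩
      · intro e he
        refine hu _ hcC hus _ ?_
        exact Finset.mem_image_of_mem _ he
      · intro q hq
        obtain ⟨e, he, hex⟩ := hus
        have h1 := hT e.1 he e.2 (F, (0, c)) (by
          have h2 := self_ancL hcC
          rw [← hex] at h2
          rw [← hex]
          exact h2) _ (mem_TL (x := (F, (0, c))) hq)
        exact h1
      · refine spl ?_
        intro c' hc' hnu e he heA
        obtain ⟨h1, v, hv1, hv2, -⟩ := FlL_notin G.hi a (F := F) (A := regS q0 0 c) (by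
          intro v hv
          exact Col_nodes hc hv.1) hc' he heA
        refine hnu ?_
        have h3 : c'.2 = (0, c) := by
          rw [mem_CsL] at hc'
          refine nodes_unique (v := v) hc'.1 hc hc'.2 ?_ ?_
          · rw [hc'.2]; exact (mem_Col.1 hv2).2
          · exact (mem_Col.1 hv1.1).2
        have h4 : c' = (F, (0, c)) := Prod.ext h1 h3
        rw [h4]
        exact hus
    · exact
      { one := fun e he hex => absurd ⟨e, he, hex⟩ hus
        two := fun e f he _ hex _ _ => absurd ⟨e, he, hex⟩ hus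
        join := fun e f he _ hex _ _ => absurd ⟨e, he, hex⟩ hus }
  -- nodes
  have hnode : ∀ F : Face n, ∀ t' lo', (t' + 1, lo') ∈ nodes q0 T (0 : V (n + 2)) →
      (∃ e : En D, e.1 ∈ J ∧ ce e ∈ (tree q0 F (t' + 1) lo').leaves) →
      NodeOK κ ω g (F, (t' + 1, lo')) (F, (t', ch q0 t' lo' false)) (F, (t', ch q0 t' lo' true))
        (K (F, (t' + 1, lo'))) := by
    rintro F t' lo' hn ⟨e, he, hel⟩
    rw [mem_leaves] at hel
    refine node_ok RS ?_ ?_
    · intro q hq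
      have h1 := hT e.1 he e.2 (F, (t' + 1, lo')) (by
        show (F, (t' + 1, lo')) ∈ ancL n q0 i (ce e)
        unfold ancL
        rw [Finset.mem_filter]
        refine ⟨?_, hel.1.symm, hel.2.1⟩
        rw [mem_NsL]
        exact hn) _ (mem_TL (x := (F, (t' + 1, lo'))) hq)
      exact h1
    · refine spl ?_
      intro c' hc' _ e' he' heA
      obtain ⟨-, v, hv1, -, hv3⟩ := FlL_notin G.hi a (F := F)
        (A := {v | v ∈ Col q0 (t' + 1) lo' ∧ (hb n q0 : ℤ) + 8 * rho n q0 0 < v 0}) (by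
          intro v hv
          exact Col_nodes hn hv.1) hc' he' heA
      exact absurd hv1.2 (not_lt.2 hv3)
  have hok : ∀ F : Face n, Pool.Agent.H47.HJ.Tree.OK κ ω D J g ce (fun x => mB n q0 + K x) K
      (tree q0 F T 0) := fun F => tree_ok RS (fun c hc => hleaf F c hc) (fun t' lo' hn he => hnode F t' lo' hn he)
  have hcov : ∀ e : En D, e.1 ∈ J → ∃ F : Face n, ce e ∈ (tree q0 F T 0).leaves := by
    intro e _
    refine ⟨(ce e).1, ?_⟩
    have h1 := hce_mem e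
    rw [mem_CsL] at h1
    rw [mem_leaves]
    exact ⟨rfl, h1.1, h1.2⟩
  have hsep : ∀ F : Face n, Pool.Agent.H47.HJ.Tree.Sep g (tree q0 F T 0) := fun F => tree_sep RS q0 i a ω' F T 0
  have hsep' : ∀ F F' : Face n, F ≠ F' → Disjoint (g.Reg (tree q0 F T 0)) (g.Reg (tree q0 F' T 0)) ∧
      Disjoint (tree q0 F T 0).verts (tree q0 F' T 0).verts := fun F F' hFF => trees_disj RS G.hi a ω' hFF
  obtain ⟨S, hSJ, hSn, hSv, F, F', s', hcase, hroad⟩ := machine hD hF g ce (fun x => mB n q0 + K x) K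
    (fun F : Face n => tree q0 F T 0) hcard (fun F => trees_out RS q0 i a ω' F) hsep hsep' hok hcov hJ v hv
  refine ⟨S, hSJ, hSn, ?_, ?_⟩
  · refine hSv.trans (le_of_eq ?_)
    congr 1
    rw [LinkM_card_face]
    push_cast
    ring
  -- cost of the forest
  set US := (J ×ˢ (Finset.univ : Finset Bool)).biUnion
    (fun js => ancL n q0 i (cellL q0 i a (D.pt js.1 js.2))) with hUS
  have hUSmem : ∀ e : En D, e.1 ∈ J → ∀ x ∈ ancL n q0 i (ce e), x ∈ US := by
    intro e he x hx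
    rw [hUS, Finset.mem_biUnion]
    exact ⟨e, Finset.mem_product.2 ⟨he, Finset.mem_univ _⟩, hx⟩
  have hcost : ∑ F : Face n, Pool.Agent.H47.HJ.Tree.cost D J ce (fun x => mB n q0 + K x) K (tree q0 F T 0) ≤
      2 * mB n q0 * J.card + 3 * ∑ x ∈ US, K x := by
    refine cost_le g ce (fun x => mB n q0 + K x) K (mB n q0) (fun _ => rfl) hcard _ hsep
      (fun F F' hFF => (hsep' F F' hFF).2) US ?_ ?_
    · rintro F x l r hs ⟨e, he, hel⟩
      exact hUSmem e he x (anc_of_sub hs hel)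
    · rintro F x - ⟨e, he, rfl⟩
      exact hUSmem e he _ (self_ancL (hce_mem e))
  have hKsum : ∑ x ∈ US, K x = ∑ ν ∈ US, ∑ q ∈ TL q0 i a ν, q.cost RS ω' :=
    Finset.sum_congr rfl fun x _ => (TL_cost RS q0 i a x ω').symm
  rw [hKsum] at hcost
  -- the roads from the ports
  have road : ∀ (F : Face n) (σ : Bool) (gg : Face n), gg ≠ (F.1, !F.2) →
      Rw κ ω (UT n q0 m h U r6 i a F σ gg) (Port n m h U gg) (g.hub (tree q0 F T 0).root σ)
        ((64 * r6 + 1) ^ (n + 2) + ∑ q ∈ T0L n q0 m h U r6 i a, q.cost RS ω') := by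
    intro F σ gg hgg
    have h1 := top_road RS G F σ gg hgg (ω := ω) (ω' := ω')
      (fun x hx y hy => h0 _ (mem_Fl0S hx hy))
      (fun q hq => hT0 _ (mem_T0L hgg hq))
      (spl fun c hc _ e he heA => UT_noFl G (σ := σ) hgg hc he fun w hw => Or.inr (heA w hw))
    rw [tree_root]
    exact rw_mono (fun _ h => h) subset_rfl (Nat.add_le_add (hHB gg) (T0L_cost RS q0 m h U r6 i a ω' F σ gg hgg)) h1
  have hW : ∀ (k₀ : Fin (n + 2)) (s : Bool), (gax n U m h k₀ s '' slab (4 * U) (uvec n U) (2 ^ (m - h + 7))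
      (3 * 2 ^ (m - h + 7))).Finite := fun k₀ s => (slab_finite _ _ _ _).image _
  have hQW : ∀ (k₀ : Fin (n + 2)) (s : Bool), (cube i a : Set (V (n + 2))) ⊆
      gax n U m h k₀ s '' slab (4 * U) (uvec n U) (2 ^ (m - h + 7)) (3 * 2 ^ (m - h + 7)) :=
    fun k₀ s v hv => mem_slab k₀ s fun k => cube_near G (Finset.mem_coe.1 hv) k
  have hRW : ∀ (k₀ : Fin (n + 2)) (s : Bool) (F : Face n), g.Reg (tree q0 F T 0) ⊆
      gax n U m h k₀ s '' slab (4 * U) (uvec n U) (2 ^ (m - h + 7)) (3 * 2 ^ (m - h + 7)) :=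
    fun k₀ s F v hv => mem_slab k₀ s fun k => Reg_near RS G ω' F hv k
  have hUW : ∀ (k₀ : Fin (n + 2)) (s : Bool) (F : Face n) (σ : Bool) (gg : Face n), gg ≠ (F.1, !F.2) →
      UT n q0 m h U r6 i a F σ gg ⊆
      gax n U m h k₀ s '' slab (4 * U) (uvec n U) (2 ^ (m - h + 7)) (3 * 2 ^ (m - h + 7)) :=
    fun k₀ s F σ gg hgg v hv => mem_slab k₀ s fun k => UT_bound G hgg hv k
  have hfin : ∀ (k₀ : Fin (n + 2)) (s : Bool) (N : ℕ),
      N ≤ ∑ j ∈ S, D.n j + ((64 * r6 + 1) ^ (n + 2) + ∑ q ∈ T0L n q0 m h U r6 i a, q.cost RS ω') +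
        ((64 * r6 + 1) ^ (n + 2) + ∑ q ∈ T0L n q0 m h U r6 i a, q.cost RS ω') +
        ∑ F : Face n, Pool.Agent.H47.HJ.Tree.cost D J ce (fun x => mB n q0 + K x) K (tree q0 F T 0) →
      (projS S (TFam κ ω (cube i a : Set (V (n + 2))) D)).ncard ≤
        Zc κ ω (gax n U m h k₀ s '' slab (4 * U) (uvec n U) (2 ^ (m - h + 7)) (3 * 2 ^ (m - h + 7)))
          (Port n m h U (k₀, !s)) (Port n m h U (k₀, s)) N →
      ∃ (π : Equiv.Perm (Fin (n + 2))) (τ : Fin (n + 2) → Bool) (N : ℕ),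
        N ≤ ∑ j ∈ S, D.n j + 2 * mB n q0 * J.card + 2 * (64 * r6 + 1) ^ (n + 2)
          + 4 * ∑ q ∈ T0L n q0 m h U r6 i a, q.cost RS ω'
          + 4 * ∑ ν ∈ US, ∑ q ∈ TL q0 i a ν, q.cost RS ω' ∧
        (projS S (TFam κ ω (cube i a : Set (V (n + 2))) D)).ncard ≤
          Zc κ (tr (gAut n U m h π τ) ω) (slab (4 * U) (uvec n U) (2 ^ (m - h + 7))
            (3 * 2 ^ (m - h + 7))) ((2 ^ (m - h + 7) : ℤ) • uvec n U)
            ((3 * 2 ^ (m - h + 7) : ℤ) • uvec n U) N := by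
    intro k₀ s N hN hZ
    refine ⟨Equiv.swap 0 k₀, fun _ => s, N, by omega, ?_⟩
    rw [← port_left, ← port_right] at hZ
    have h1 := Zc_tr (isAut_gAut (n := n) U m h (Equiv.swap 0 k₀) (fun _ => s)) ω
      (slab (4 * U) (uvec n U) (2 ^ (m - h + 7)) (3 * 2 ^ (m - h + 7)))
      ((2 ^ (m - h + 7) : ℤ) • uvec n U) ((3 * 2 ^ (m - h + 7) : ℤ) • uvec n U) (κ := κ) N
    rw [← h1]
    exact hZ
  rcases hcase with ⟨rfl, rfl⟩ | ⟨hne, rfl⟩
  · -- same face
    obtain ⟨k, hk⟩ : ∃ k : Fin (n + 2), k ≠ F.1 := exists_ne F.1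
    have hg1 : ((k, false) : Face n) ≠ (F.1, !F.2) := fun h' => hk (congrArg Prod.fst h')
    have hg2 : ((k, true) : Face n) ≠ (F.1, !F.2) := fun h' => hk (congrArg Prod.fst h')
    obtain ⟨N, hN, hZ⟩ := hroad (Port n m h U (k, false)) (Port n m h U (k, true))
      (UT n q0 m h U r6 i a F false (k, false)) (UT n q0 m h U r6 i a F true (k, true)) _ _ _ (hW k true)
      (road F false (k, false) hg1) (rw_symm (road F true (k, true) hg2)) (UT_same G hk)
      (UT_disj_cube G hg1) (UT_disj_cube G hg2)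
      (fun i₀ w hw hR => by
        show w ∈ g.zone (tree q0 F T 0).root false
        rw [tree_root]
        exact UT_zone RS G ω' hg1 i₀ hw hR)
      (fun i₀ w hw hR => by
        show w ∈ g.zone (tree q0 F T 0).root true
        rw [tree_root]
        exact UT_zone RS G ω' hg2 i₀ hw hR)
      (hQW k true) (hRW k true) (hUW k true F false _ hg1) (hUW k true F true _ hg2)
    exact hfin k true N hN hZ
  · -- different faces
    have hg1 : F ≠ (F.1, !F.2) := LinkM_self_ne F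
    have hg2 : ((F.1, !F.2) : Face n) ≠ (F'.1, !F'.2) := LinkM_flip_ne hne
    obtain ⟨N, hN, hZ⟩ := hroad (Port n m h U F) (Port n m h U (F.1, !F.2))
      (UT n q0 m h U r6 i a F false F) (UT n q0 m h U r6 i a F' false (F.1, !F.2)) _ _ _ (hW F.1 (!F.2))
      (road F false F hg1) (rw_symm (road F' false (F.1, !F.2) hg2)) (UT_diff G hne)
      (UT_disj_cube G hg1) (UT_disj_cube G hg2)
      (fun i₀ w hw hR => by
        show w ∈ g.zone (tree q0 F T 0).root false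
        rw [tree_root]
        exact UT_zone RS G ω' hg1 i₀ hw hR)
      (fun i₀ w hw hR => by
        show w ∈ g.zone (tree q0 F' T 0).root false
        rw [tree_root]
        exact UT_zone RS G ω' hg2 i₀ hw hR)
      (hQW F.1 (!F.2)) (hRW F.1 (!F.2)) (hUW F.1 (!F.2) F false _ hg1) (hUW F.1 (!F.2) F' false _ hg2)
    refine hfin F.1 (!F.2) N hN ?_
    rw [Bool.not_not]
    exact hZ

end Pool.Agent.H94.HF
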